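import Mathlib
import Pool.Agent.N229.HF.PolyDyn
import Pool.Agent.N229.HF.Unif

/-!
# All random polynomials with independent roots of bounded density are hyperbolic

The roots are independent, not necessarily identically distributed, with laws of bounded density
and bounded support; the leading coefficient is arbitrary. There is no further hypothesis. In
particular most of the perturbations of the roots of any given polynomial of large degree are
hyperbolic.
-/

set_option autoImplicit false

open Polynomial Filter Topology MeasureTheory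

namespace Pool.Agent.Results.MP_28f8a1_an.AllLawsOfRoots

/-- The polynomial as a self-map of the plane. -/
def map (T : ℂ[X]) : ℂ → ℂ := fun w : ℂ => T.eval w

/-- The orbit of `z` escapes to infinity. -/
def Escapes (T : ℂ[X]) (z : ℂ) : Prop :=
  Tendsto (fun k : ℕ => ‖(map T)^[k] z‖) atTop atTop

/-- The orbit of `z` is attracted by a sink (attracting periodic point) of `T`. -/
def Attracted (T : ℂ[X]) (z : ℂ) : Prop :=
  ∃ n : ℕ, 0 < n ∧ ∃ x : ℂ, (map T)^[n] x = x ∧ ‖deriv ((map T)^[n]) x‖ < 1 ∧
    Tendsto (fun k : ℕ => (map T)^[n * k] z) atTop (𝓝 x)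

/-- `T` is hyperbolic: every critical point escapes or is attracted by a sink. -/
def Hyperbolic (T : ℂ[X]) : Prop :=
  ∀ c : ℂ, (derivative T).eval c = 0 → Escapes T c ∨ Attracted T c

/-- There is one point `x` such that every critical point which does not escape converges to `x`,
and `x` is then an attracting fixed point. -/
def OneSink (T : ℂ[X]) : Prop :=
  ∃ x : ℂ, ∀ c : ℂ, (derivative T).eval c = 0 → Escapes T c ∨
    (map T x = x ∧ ‖deriv (map T) x‖ < 1 ∧ Tendsto (fun k : ℕ => (map T)^[k] c) atTop (𝓝 x))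

/-- The polynomial with leading coefficient `a` and roots `z i`. -/
noncomputable def withRoots {N : ℕ} (a : ℂ) (z : Fin N → ℂ) : ℂ[X] := C a * ∏ i, (X - C (z i))

/-- The laws of the roots: probability measures with density at most `D` (with respect to the area)
and support in the disc `|z| ≤ R`. -/
structure Law (D R : ℝ) (μ : Measure ℂ) : Prop where
  prob : IsProbabilityMeasure μ
  density : ∀ B : Set ℂ, MeasurableSet B → μ B ≤ ENNReal.ofReal D * volume B
  support : μ (Metric.closedBall (0 : ℂ) R)ᶜ = 0

theorem dens_of {D R : ℝ} {μ : Measure ℂ} (h : Law D R μ) : Pool.Agent.N229.RL.Dens μ D R := by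
  have := h.prob
  refine ⟨h.prob, ?_, ?_, h.density, h.support⟩
  · by_contra hD
    rw [not_le] at hD
    have h1 := h.density Set.univ MeasurableSet.univ
    rw [ENNReal.ofReal_eq_zero.2 hD.le, zero_mul, measure_univ] at h1
    exact absurd h1 (by simp)
  · by_contra hR
    rw [not_le] at hR
    have h1 := h.support
    rw [Metric.closedBall_eq_empty.2 hR, Set.compl_empty, measure_univ] at h1
    exact one_ne_zero h1

theorem good_of {N : ℕ} {a : ℂ} {z : Fin N → ℂ}
    (hT : Pool.Agent.N229.HF.OneS (C a * Pool.Agent.W751.CD.P z)) :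
    Hyperbolic (withRoots a z) ∧ OneSink (withRoots a z) := by
  obtain ⟨x, hx⟩ := hT
  constructor
  · intro c hc
    rcases hx c hc with h | ⟨h1, h2, h3⟩
    · exact Or.inl h
    · refine Or.inr ⟨1, one_pos, x, h1, ?_, ?_⟩
      · rw [Function.iterate_one]; exact h2
      · simp only [one_mul]; exact h3
  · refine ⟨x, fun c hc => ?_⟩
    rcases hx c hc with h | ⟨h1, h2, h3⟩
    · exact Or.inl h
    · exact Or.inr ⟨h1, h2, h3⟩

theorem nu_inv (K : ℝ) (N : ℕ) :
    K * (Pool.Agent.N229.HF.nu N)⁻¹ = K / (N : ℝ) ^ (1 / 256 : ℝ) := by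
  unfold Pool.Agent.N229.HF.nu
  exact (div_eq_mul_inv K _).symm

/-- (1) For all `R` and `D` there is a constant `K` such that for every degree `N ≥ 2`, all laws
`μ 1, …, μ N` of density at most `D` on the disc `|z| ≤ R` and every leading coefficient `a ≠ 0` the
polynomial with leading coefficient `a` and independent roots of the laws `μ i` is hyperbolic
outside an event of probability at most `K / N ^ (1 / 256)`; moreover all critical points which do
not escape converge to one and the same attracting fixed point.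

(2) In particular, for all `R` and `ε > 0` there is `K` such that for every polynomial of degree
`N ≥ 2` with leading coefficient `a ≠ 0` and all roots `z i` in the disc `|z| ≤ R` the same holds
for all perturbations `w` of the roots by at most `ε` outside a subset of the polydisc
`{w : |w i - z i| ≤ ε}` whose volume is at most `K / N ^ (1 / 256)` times that of the polydisc. -/
theorem result :
    (∀ R D : ℝ, ∃ K : ℝ, 0 < K ∧ ∀ N : ℕ, 2 ≤ N → ∀ (μ : Fin N → Measure ℂ) (a : ℂ),
      (∀ i, Law D R (μ i)) → a ≠ 0 →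
        Measure.pi μ {z | ¬ (Hyperbolic (withRoots a z) ∧ OneSink (withRoots a z))} ≤
          ENNReal.ofReal (K / (N : ℝ) ^ (1 / 256 : ℝ))) ∧
    (∀ R ε : ℝ, 0 < ε → ∃ K : ℝ, 0 < K ∧ ∀ N : ℕ, 2 ≤ N → ∀ (z : Fin N → ℂ) (a : ℂ),
      (∀ i, ‖z i‖ ≤ R) → a ≠ 0 →
        volume {w : Fin N → ℂ | ¬ (Hyperbolic (withRoots a w) ∧ OneSink (withRoots a w)) ∧
          ∀ i, ‖w i - z i‖ ≤ ε} ≤
          ENNReal.ofReal (K / (N : ℝ) ^ (1 / 256 : ℝ)) *
            volume {w : Fin N → ℂ | ∀ i, ‖w i - z i‖ ≤ ε}) := by
  constructor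
  · intro R D
    obtain ⟨K, hK, h⟩ := Pool.Agent.N229.HF.poly_general R D
    refine ⟨K, hK, fun N hN μ a hμ ha => ?_⟩
    refine (measure_mono ?_).trans ((h N hN μ a (fun i => dens_of (hμ i)) ha).trans_eq ?_)
    · exact fun z hz h1 => hz (good_of h1)
    · rw [nu_inv]
  · intro R ε hε
    obtain ⟨K, hK, h⟩ := Pool.Agent.N229.HF.poly_general (R + ε) ((Real.pi * ε ^ 2)⁻¹)
    refine ⟨K, hK, fun N hN z a hz ha => ?_⟩
    have hB : {w : Fin N → ℂ | ∀ i, ‖w i - z i‖ ≤ ε} = Pool.Agent.N229.HF.pdisc ε z := by
      ext w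
      simp only [Pool.Agent.N229.HF.pdisc, Set.mem_ofPred_eq, Set.mem_pi, Set.mem_univ,
        forall_true_left, mem_closedBall_iff_norm]
    have h1 := h N hN (fun i => Pool.Agent.N229.HF.uni ε (z i)) a
      (fun i => Pool.Agent.N229.HF.dens_uni hε (hz i)) ha
    have h2 := Pool.Agent.N229.HF.unif_pi z hε
      {w : Fin N → ℂ | ¬ (Hyperbolic (withRoots a w) ∧ OneSink (withRoots a w))}
    rw [← hB] at h2
    refine h2.le.trans (mul_le_mul_left ((measure_mono ?_).trans (h1.trans_eq ?_)) _)
    · exact fun w hw h3 => hw (good_of h3)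
    · rw [nu_inv]

end Pool.Agent.Results.MP_28f8a1_an.AllLawsOfRoots
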