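import Pool.Agent.N251.AD.Fin
import Pool.Agent.N251.AD.Hyp

set_option autoImplicit false

open Filter Topology Polynomial MeasureTheory Metric

namespace Pool.Agent.Results.MP_28f8a1_an.AreaDescent

/-- The polynomial as a self-map of the plane. -/
def map (T : ℂ[X]) : ℂ → ℂ := fun w : ℂ => T.eval w

/-- The orbit of `z` escapes to infinity. -/
def Escapes (T : ℂ[X]) (z : ℂ) : Prop :=
  Tendsto (fun k : ℕ => ‖(map T)^[k] z‖) atTop atTop

/-- The orbit of `z` is attracted by a sink (attracting periodic point) of `T`. -/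
def Attracted (T : ℂ[X]) (z : ℂ) : Prop :=
  ∃ n : ℕ, 0 < n ∧ ∃ x : ℂ, (map T)^[n] x = x ∧ ‖deriv ((map T)^[n]) x‖ < 1 ∧
    Tendsto (fun k : ℕ => (map T)^[n * k] z) atTop (𝓝 x)

/-- The point `z` belongs to the basin of a parabolic cycle of `T`. -/
def InParabolicBasin (T : ℂ[X]) (z : ℂ) : Prop :=
  ∃ (n : ℕ) (x : ℂ), 0 < n ∧ (map T)^[n] x = x ∧ deriv ((map T)^[n]) x = 1 ∧
    Tendsto (fun k : ℕ => (map T)^[n * k] z) atTop (𝓝 x) ∧ ∀ k : ℕ, (map T)^[n * k] z ≠ x

/-- The point `z` is mapped by an iterate of `T` into a disc on which an iterate of `T` is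
conjugate to an irrational rotation (a Siegel disc). -/
def InSiegelDisc (T : ℂ[X]) (z : ℂ) : Prop :=
  ∃ (m n : ℕ) (r : ℝ) (h : ℂ → ℂ) (ρ : ℂ), 0 < n ∧ 0 < r ∧ ‖ρ‖ = 1 ∧
    (∀ k : ℕ, 0 < k → ρ ^ k ≠ 1) ∧ DifferentiableOn ℂ h (ball 0 r) ∧ Set.InjOn h (ball 0 r) ∧
    (∀ w ∈ ball (0 : ℂ) r, (map T)^[n] (h w) = h (ρ * w)) ∧ (map T)^[m] z ∈ h '' ball 0 r

/-- The points which are in none of the basins and not mapped into a Siegel disc. By Sullivan's
theorem and the classification of periodic Fatou components this is the Julia set of `T`. -/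
def Js (T : ℂ[X]) : Set ℂ :=
  {z : ℂ | ¬ (Escapes T z ∨ Attracted T z ∨ InParabolicBasin T z ∨ InSiegelDisc T z)}

/-- `S` is hyperbolic: every critical point escapes or is attracted by a sink. -/
def Hyperbolic (S : ℂ[X]) : Prop :=
  ∀ c : ℂ, (derivative S).eval c = 0 → Escapes S c ∨ Attracted S c

/-- `S` has the degree and the leading coefficient of `T`, and all its coefficients are at distance
less than `r` from those of `T`. -/
def Near (T : ℂ[X]) (r : ℝ) (S : ℂ[X]) : Prop :=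
  S.natDegree = T.natDegree ∧ S.leadingCoeff = T.leadingCoeff ∧
    ∀ i : ℕ, ‖S.coeff i - T.coeff i‖ < r

theorem Js_eq (T : ℂ[X]) : Js T = Pool.Agent.H713R5.QJ.JS T := by
  ext z
  have : (Pool.Agent.H713R5.QJ.Good (Pool.Agent.H713R5.QJ.ev T) z ∨
      Pool.Agent.H713R5.QJ.Para (Pool.Agent.H713R5.QJ.ev T) z ∨
      Pool.Agent.H713R5.QJ.Sieg (Pool.Agent.H713R5.QJ.ev T) z) ↔
      (Escapes T z ∨ Attracted T z ∨ InParabolicBasin T z ∨ InSiegelDisc T z) :=
    or_assoc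
  exact (not_congr this).symm

theorem hyp_area (T : ℂ[X]) (hd : 2 ≤ T.natDegree) (h : Hyperbolic T) : volume (Js T) = 0 := by
  rw [Js_eq]
  exact le_antisymm ((Pool.Agent.N251.AD.js_le T).trans
    (Pool.Agent.N251.AD.hyp_null T hd h).le) zero_le

theorem area_fin (T : ℂ[X]) (hd : 2 ≤ T.natDegree) : volume (Js T) < ⊤ := by
  rw [Js_eq]
  exact Pool.Agent.H713R5.QJ.VFIN.js_fin T hd

theorem descent (d : ℕ) (A : ℝ) (hd : 2 ≤ d) : ∃ c : ℝ, 0 < c ∧
    ∀ T : ℂ[X], T.natDegree = d → (∀ i : ℕ, ‖T.coeff i‖ ≤ A) → 1 / A ≤ ‖T.leadingCoeff‖ →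
    ∀ r : ℝ, 0 < r → r ≤ 1 → ∃ S : ℂ[X], Near T r S ∧
      (Hyperbolic S ∨ volume (Js S) + ENNReal.ofReal (c * r ^ 2) ≤ volume (Js T)) := by
  obtain ⟨n, rfl⟩ : ∃ n, d = n + 1 := ⟨d - 1, by omega⟩
  obtain ⟨c, hc, h⟩ := Pool.Agent.N251.AD.fin_main n (max A 1) (by omega) (le_max_right _ _)
  refine ⟨c, hc, fun T hT hTA hTl r hr hr1 => ?_⟩
  have hA0 : 0 < A := by
    rcases lt_or_ge 0 A with h0 | h0
    · exact h0
    · exfalso
      have h1 : T.leadingCoeff = 0 := by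
        rw [← norm_le_zero_iff]
        exact (hTA _).trans h0
      rw [leadingCoeff_eq_zero] at h1
      rw [h1, natDegree_zero] at hT
      omega
  obtain ⟨S, e1, e2, e3, e4⟩ := h T hT (fun j => (hTA j).trans (le_max_left _ _))
    ((one_div_le_one_div_of_le hA0 (le_max_left _ _)).trans hTl) r hr hr1
  refine ⟨S, ⟨e1, e2, e3⟩, ?_⟩
  rw [Js_eq, Js_eq]
  exact e4

/-- The first part: for every degree `d ≥ 2` and every `A` there is `c > 0` such that for every
polynomial `T` of degree `d` with coefficients bounded by `A` and leading coefficient at least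
`1 / A` in modulus, and for every scale `0 < r ≤ 1`, there is within distance `r` of `T` either a
hyperbolic polynomial (and then its Julia set has zero area) or a polynomial `S` with
`area (Js S) + c * r ^ 2 ≤ area (Js T)`.
The second part: if `T` is a local minimum of the area of the Julia set then this area is zero and
`T` is a limit of hyperbolic polynomials. -/
theorem result :
    (∀ (d : ℕ) (A : ℝ), 2 ≤ d → ∃ c : ℝ, 0 < c ∧ ∀ T : ℂ[X], T.natDegree = d →
      (∀ i : ℕ, ‖T.coeff i‖ ≤ A) → 1 / A ≤ ‖T.leadingCoeff‖ → volume (Js T) < ⊤ ∧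
      ∀ r : ℝ, 0 < r → r ≤ 1 → ∃ S : ℂ[X], Near T r S ∧
        ((Hyperbolic S ∧ volume (Js S) = 0) ∨
          volume (Js S) + ENNReal.ofReal (c * r ^ 2) ≤ volume (Js T))) ∧
    (∀ T : ℂ[X], 2 ≤ T.natDegree →
      (∃ δ : ℝ, 0 < δ ∧ ∀ S : ℂ[X], Near T δ S → volume (Js T) ≤ volume (Js S)) →
      volume (Js T) = 0 ∧ ∀ ε : ℝ, 0 < ε → ∃ S : ℂ[X], Near T ε S ∧ Hyperbolic S) := by
  have hA : ∀ T : ℂ[X], 2 ≤ T.natDegree → ∃ A : ℝ, (∀ i : ℕ, ‖T.coeff i‖ ≤ A) ∧
      1 / A ≤ ‖T.leadingCoeff‖ := by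
    intro T hT
    have hl : 0 < ‖T.leadingCoeff‖ := by
      rw [norm_pos_iff, Polynomial.leadingCoeff_ne_zero]
      rintro rfl
      simp at hT
    set A : ℝ := ∑ j ∈ Finset.range (T.natDegree + 1), ‖T.coeff j‖ + 1 / ‖T.leadingCoeff‖
      with hAdef
    have h0 : 0 ≤ ∑ j ∈ Finset.range (T.natDegree + 1), ‖T.coeff j‖ :=
      Finset.sum_nonneg fun j _ => norm_nonneg _
    have h3 : 0 < 1 / ‖T.leadingCoeff‖ := by positivity
    refine ⟨A, fun j => ?_, ?_⟩
    · by_cases hj : j < T.natDegree + 1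
      · have h4 := Finset.single_le_sum (f := fun j => ‖T.coeff j‖)
          (fun j _ => norm_nonneg _) (Finset.mem_range.2 hj)
        linarith
      · rw [coeff_eq_zero_of_natDegree_lt (by omega), norm_zero]
        linarith
    · rw [div_le_iff₀ (by linarith), mul_comm, ← div_le_iff₀ hl]
      linarith
  refine ⟨?_, ?_⟩
  · intro d A hd
    obtain ⟨c, hc, h⟩ := descent d A hd
    refine ⟨c, hc, fun T hT hTA hTl => ⟨area_fin T (by omega), fun r hr hr1 => ?_⟩⟩
    obtain ⟨S, hS, hS'⟩ := h T hT hTA hTl r hr hr1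
    refine ⟨S, hS, ?_⟩
    rcases hS' with h1 | h1
    · exact Or.inl ⟨h1, hyp_area S (by rw [hS.1]; omega) h1⟩
    · exact Or.inr h1
  · rintro T hT ⟨δ, hδ, hmin⟩
    have h1 : ∀ ε : ℝ, 0 < ε → ∃ S : ℂ[X], Near T ε S ∧ Hyperbolic S := by
      intro ε hε
      obtain ⟨A, e1, e2⟩ := hA T hT
      obtain ⟨c, hc, h⟩ := descent T.natDegree A hT
      set r : ℝ := min (min ε δ) 1 with hr
      have hr0 : 0 < r := lt_min (lt_min hε hδ) one_pos
      obtain ⟨S, hS, hS'⟩ := h T rfl e1 e2 r hr0 (min_le_right _ _)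
      have hrε : r ≤ ε := (min_le_left _ _).trans (min_le_left _ _)
      have hrδ : r ≤ δ := (min_le_left _ _).trans (min_le_right _ _)
      refine ⟨S, ⟨hS.1, hS.2.1, fun i => (hS.2.2 i).trans_le hrε⟩, ?_⟩
      rcases hS' with h1 | h1
      · exact h1
      · exfalso
        have h2 := hmin S ⟨hS.1, hS.2.1, fun i => (hS.2.2 i).trans_le hrδ⟩
        have h3 : volume (Js S) < ⊤ := area_fin S (by rw [hS.1]; exact hT)
        have h4 : volume (Js S) + ENNReal.ofReal (c * r ^ 2) ≤ volume (Js S) + 0 := by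
          rw [add_zero]
          exact h1.trans h2
        rw [ENNReal.add_le_add_iff_left h3.ne] at h4
        have h5 : 0 < ENNReal.ofReal (c * r ^ 2) := ENNReal.ofReal_pos.2 (by positivity)
        exact absurd h5 (not_lt.2 h4)
    refine ⟨?_, h1⟩
    obtain ⟨S, hS, hS'⟩ := h1 δ hδ
    have h2 := hmin S hS
    rw [hyp_area S (by rw [hS.1]; exact hT) hS'] at h2
    exact le_antisymm h2 zero_le

end Pool.Agent.Results.MP_28f8a1_an.AreaDescent
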