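import Mathlib
import Pool.Prelude.Def_F_c31e40fa
import Pool.Agent.N772.CL.Conv
import Pool.Agent.N772.CL.Num2
import Pool.Agent.N772.TC.Area
import Pool.Agent.R240.Growth

/-!
# Perfect small copies of the connectedness locus of polynomials of degree `d`

The parameters `x = (x_1, …, x_(d-2), t)` stand for the monic centred polynomials
`z ^ d + x_1 z + ⋯ + x_(d-2) z ^ (d-2) + t`. The connectedness locus consists of the parameters for
which all critical points have bounded orbits (that is, the Julia set is connected).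

**Theorem.** For most superattracting parameters `c` of period `n` of the family `z ^ d + c`, and for
exponentially many of them in exponentially small discs about each parameter `c₀` with a Lyapunov
exponent, the connectedness locus contains a small copy of itself near `z ^ d + c` which is
asymptotically perfect: after an explicit rescaling of the coefficients and of the plane, the maps
`g ^ n` are exponentially close to ALL monic centred polynomials with coefficients of exponential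
size on an exponentially large disc; the parameters for which the critical points stay in this disc
under `g ^ n` are bounded (by a constant which depends only on `d`), belong to the connectedness
locus, are `ε`-close to the connectedness locus after the rescaling, and, conversely, the copy and its
hyperbolic part are `ε`-close to the hyperbolic part of the connectedness locus. The attracting
cycles and their multipliers correspond.
-/

set_option autoImplicit false

open Polynomial Filter Metric Topology Set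

namespace Pool.Agent.Results.MP_28f8a1_an.PerfectCopiesOfLocus

open N62a1eb23

/-- The polynomial `z ^ d + c`. -/
def f (d : ℕ) (c : ℂ) : ℂ → ℂ := fun z => z ^ d + c

/-- The superattracting parameters of exact period `n`: the critical point `0` of `z ^ d + c` is
periodic with least period `n`. -/
def centres (d n : ℕ) : Set ℂ := {c | Function.minimalPeriod (f d c) 0 = n}

/-- The critical orbit as a function of the parameter. -/
def crit (d n : ℕ) (c : ℂ) : ℂ := (f d c)^[n] 0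

/-- The monic centred polynomial `z ^ d + x_1 z + ⋯ + x_(d-2) z ^ (d-2) + t` with the parameter
`x = (x_1, …, x_(d-2), t)`. -/
def poly (d : ℕ) (x : (Fin (d - 2) → ℂ) × ℂ) : ℂ → ℂ :=
  fun z => z ^ d + ∑ i, x.1 i * z ^ (i.1 + 1) + x.2

/-- The connectedness locus: all critical points have bounded orbits. -/
def locus (d : ℕ) : Set ((Fin (d - 2) → ℂ) × ℂ) :=
  {x | ∀ ω, deriv (poly d x) ω = 0 → ∃ B : ℝ, ∀ j : ℕ, ‖(poly d x)^[j] ω‖ ≤ B}

/-- The hyperbolic polynomials in the connectedness locus: all critical points are attracted by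
attracting cycles in the plane. -/
def hyperbolic (d : ℕ) : Set ((Fin (d - 2) → ℂ) × ℂ) :=
  {x | ∀ ω, deriv (poly d x) ω = 0 → ∃ (p : ℕ) (a : ℂ), 0 < p ∧ (poly d x)^[p] a = a ∧
    ‖deriv ((poly d x)^[p]) a‖ < 1 ∧ Tendsto (fun k : ℕ => (poly d x)^[p * k] ω) atTop (𝓝 a)}

/-- The rescaling of the parameters near `z ^ d + c`: the coefficient of `z ^ i` is multiplied by
`m ^ (d - i)`, for `1 ≤ i ≤ d - 2`, and the constant term is `c + b + l t`. -/
noncomputable def chart (d : ℕ) (c m l : ℂ) (b : (Fin (d - 2) → ℂ) → ℂ)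
    (x : (Fin (d - 2) → ℂ) × ℂ) : (Fin (d - 2) → ℂ) × ℂ :=
  (fun i => x.1 i * m ^ (d - 1 - i.1), c + b x.1 + l * x.2)

/-- `Q` is the renormalisation of `g ^ n`: this map, in the coordinate `z / m`, is `1 / R`-close to
`Q` on the disc `|z| ≤ R`; the orbits of the points `m z` stay in the disc of radius `4` and return
to the disc of radius `R |m|` at time `n` at the earliest. -/
def Renormalises (g Q : ℂ → ℂ) (m : ℂ) (n : ℕ) (R : ℝ) : Prop :=
  ∀ z : ℂ, ‖z‖ ≤ R → ‖g^[n] (m * z) / m - Q z‖ ≤ 1 / R ∧ (∀ j ≤ n, ‖g^[j] (m * z)‖ ≤ 4) ∧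
    ∀ j, 0 < j → j < n → R * ‖m‖ < ‖g^[j] (m * z)‖

/-- The periodic points `a` of `Q` with period `p` and multiplier at most `1 - ε` in absolute value
give periodic points of `g` near `m a`, with period multiplied by `n` and nearly the same
multiplier. -/
def Cycles (g Q : ℂ → ℂ) (m : ℂ) (n p : ℕ) (ε : ℝ) : Prop :=
  ∀ a : ℂ, Q^[p] a = a → ‖deriv (Q^[p]) a‖ ≤ 1 - ε → ∃ α : ℂ, ‖α / m - a‖ ≤ ε ∧
    Function.minimalPeriod g α = n * Function.minimalPeriod Q a ∧
    ‖deriv (g^[n * p]) α - deriv (Q^[p]) a‖ ≤ ε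

/-- The scales: `m` in the plane, `l` for the constant terms. They are explicit, and
`|m| = exp (- (χ / (d - 1) ± η) n)`, `|l| = exp (- (χ d / (d - 1) ± η) n)`. -/
def Scales (d n : ℕ) (c m l : ℂ) (χ η : ℝ) : Prop :=
  m ≠ 0 ∧ l ≠ 0 ∧ m ^ (d - 1) * deriv ((f d c)^[n - 1]) c = 1 ∧ l * deriv (crit d n) c = m ∧
    |-Real.log ‖m‖ / n - χ / (d - 1)| ≤ η ∧ |-Real.log ‖l‖ / n - χ * d / (d - 1)| ≤ η

/-- The small copy of the connectedness locus, in the rescaled parameter `x` with `|x| ≤ R`: the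
critical points `m ω` of `g = poly d (chart x)` stay in the disc of radius `R |m|` under `g ^ n`
(here `ω` are the critical points of `poly d x`). -/
def copy (d n : ℕ) (c m l : ℂ) (b : (Fin (d - 2) → ℂ) → ℂ) (R : ℝ) :
    Set ((Fin (d - 2) → ℂ) × ℂ) :=
  {x | ‖x‖ ≤ R ∧ ∀ ω, deriv (poly d x) ω = 0 →
    ∀ j : ℕ, ‖(poly d (chart d c m l b x))^[n * j] (m * ω)‖ ≤ R * ‖m‖}

/-- Near `z ^ d + c` there is a small copy of the connectedness locus, perfect up to `ε`, on the scale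
`R = exp (δ n)`. -/
def Perfect (d : ℕ) (B χ η δ : ℝ) (p : ℕ) (ε : ℝ) (n : ℕ) (c : ℂ) : Prop :=
  ∃ (m l : ℂ) (b : (Fin (d - 2) → ℂ) → ℂ), Scales d n c m l χ η ∧
    -- universality
    (∀ x, ‖x‖ ≤ Real.exp (δ * n) → ‖b x.1‖ ≤ Real.exp (-(δ * n)) ∧
      ‖chart d c m l b x - (0, c)‖ ≤ Real.exp (-(δ * n)) ∧
      (∀ z, deriv (poly d (chart d c m l b x)) (m * z) = 0 ↔ deriv (poly d x) z = 0) ∧
      Renormalises (poly d (chart d c m l b x)) (poly d x) m n (Real.exp (δ * n))) ∧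
    -- the chart is bi-Lipschitz, and the point `0` has period `n` when the constant term is `c + b`
    (∀ q q', ‖q‖ ≤ Real.exp (δ * n) → ‖q'‖ ≤ Real.exp (δ * n) →
      ‖b q - b q'‖ ≤ Real.exp (-(δ * n)) * ‖q - q'‖ ∧
      Function.minimalPeriod (poly d (chart d c m l b (q, 0))) 0 = n) ∧
    -- the copy is isolated, and contained in the connectedness locus
    copy d n c m l b (Real.exp (δ * n)) = copy d n c m l b B ∧
    (∀ x ∈ copy d n c m l b B, chart d c m l b x ∈ locus d) ∧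
    -- the copy is close to the connectedness locus
    (∀ x ∈ copy d n c m l b B, ∃ y ∈ locus d, dist x y < ε) ∧
    -- the hyperbolic part of the copy is close to the hyperbolic part of the locus
    (∀ y ∈ closure (hyperbolic d), ∃ x ∈ copy d n c m l b B,
      chart d c m l b x ∈ hyperbolic d ∧ dist x y < ε) ∧
    (∀ x, ball x ε ⊆ hyperbolic d → x ∈ copy d n c m l b B ∧ chart d c m l b x ∈ hyperbolic d) ∧
    -- attracting cycles and multipliers
    ∀ x ∈ locus d, Cycles (poly d (chart d c m l b x)) (poly d x) m n p ε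

open Pool.Agent.N772.TC Pool.Agent.N772.FU Pool.Agent.N772.CL

theorem log_near' {x χ ε n : ℝ} (hn : 0 < n) (h1 : Real.exp (-((χ + ε) * n)) ≤ x)
    (h2 : x ≤ Real.exp (-((χ - ε) * n))) : |-Real.log x / n - χ| ≤ ε := by
  have hx : 0 < x := (Real.exp_pos _).trans_le h1
  have h3 := (Real.le_log_iff_exp_le hx).2 h1
  have h4 := (Real.log_le_iff_le_exp hx).2 h2
  rw [abs_le]
  constructor
  · have : χ - ε ≤ -Real.log x / n := by
      rw [le_div_iff₀ hn]
      linarith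
    linarith
  · have : -Real.log x / n ≤ χ + ε := by
      rw [div_le_iff₀ hn]
      linarith
    linarith

theorem poly_Q (d : ℕ) (x : Par d) : poly d x = Q d x := rfl

theorem locus_eq (d : ℕ) : locus d = Pool.Agent.N772.CL.locus d := by
  ext x
  unfold locus Pool.Agent.N772.CL.locus
  simp only [mem_setOf_eq, poly_Q, deriv_Q]

theorem hyp_eq (d : ℕ) : hyperbolic d = hypc d := by
  ext x
  unfold hyperbolic hypc Attr
  simp only [mem_setOf_eq, poly_Q, deriv_Q]

theorem chart_ch (d : ℕ) (c m l : ℂ) (b : (Fin (d - 2) → ℂ) → ℂ) (x : Par d) :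
    chart d c m l b x = ch d c m l b x := rfl

/-- the constants and the main estimates -/
theorem univ {d : ℕ} (hd : 2 ≤ d) {B : ℝ} (hB1 : 1 ≤ B)
    (hiso : ∀ (x : Par d) (h : ℂ → ℂ) (S : ℝ),
      (∀ z : ℂ, ‖z‖ ≤ S → ‖h z - Q d x z‖ ≤ 1) →
      (∀ ω, dQ d x ω = 0 → ∀ j, ‖h^[j] ω‖ ≤ S) →
      ‖x‖ ≤ B ∧ ∀ ω, dQ d x ω = 0 → ∀ j, ‖h^[j] ω‖ ≤ B)
    (hloc : ∀ x ∈ Pool.Agent.N772.CL.locus d, ‖x‖ ≤ B)
    {χ : ℝ} (hχ : 0 < χ) {η : ℝ} (hη : 0 < η) :
    ∃ δ : ℝ, 0 < δ ∧ ∀ c₀ : ℂ, Pool.Agent.Y298.CA.Lyap d χ c₀ →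
      ∃ δ' : ℝ, 0 < δ' ∧ δ' < χ ∧
        (∀ᶠ n : ℕ in atTop, ∀ c : ℂ, Pool.Agent.H712R2.P d n c = 0 →
          ‖c - c₀‖ ≤ Real.exp (-((χ - δ') * n)) → c ∈ centres d n) ∧
        ∀ p : ℕ, 0 < p → ∀ ε : ℝ, 0 < ε →
          ∀ᶠ n : ℕ in atTop, ∀ c ∈ centres d n, ‖c - c₀‖ ≤ Real.exp (-((χ - δ') * n)) →
            Perfect d B χ η δ p ε n c := by
  have hdR : (2 : ℝ) ≤ d := by exact_mod_cast hd
  obtain ⟨δ₁, hδ₁, H⟩ := full2 hd hχ hη
  obtain ⟨δ, hδ⟩ : ∃ δ, δ = min δ₁ η / 2 := ⟨_, rfl⟩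
  have hδ0 : 0 < δ := by rw [hδ]; positivity
  have l1 : 2 * δ ≤ δ₁ := by rw [hδ]; linarith [min_le_left δ₁ η]
  refine ⟨δ, hδ0, fun c₀ h => ?_⟩
  obtain ⟨δ', hδ'0, hδ'χ, H'⟩ := H c₀ h
  refine ⟨δ', hδ'0, hδ'χ, ?_, ?_⟩
  · filter_upwards [H', eventually_ge_atTop 1] with n hn hn1 c hP hc
    obtain ⟨h1, -⟩ := hn c hP hc
    have h2 : Function.IsPeriodicPt (f d c) n 0 := hP
    have h3 : 0 < Function.minimalPeriod (f d c) 0 := h2.minimalPeriod_pos (by omega)
    have h4 : Function.minimalPeriod (f d c) 0 ≤ n := h2.minimalPeriod_le (by omega)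
    have h5 : ¬ Function.minimalPeriod (f d c) 0 < n := by
      intro h6
      exact h1 _ h3 h6 (Function.iterate_minimalPeriod (f := f d c) (x := (0 : ℂ)))
    exact le_antisymm h4 (not_lt.1 h5)
  · intro p hp ε hε
    -- the cycles
    have hS : IsCompact ((fun x : Par d => (exc d x.1, x.2)) '' closedBall 0 B) :=
      (isCompact_closedBall _ _).image (exc_cont d)
    obtain ⟨R₁, η₁, hη₁, K₁⟩ := att_of_uni hd hS hp hε
    -- the outer estimate
    obtain ⟨R₂, η₂, hη₂, K₂⟩ := outer hd B hε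
    -- the hyperbolic part
    have hbH : Bornology.IsBounded (hypc d) := by
      refine (isBounded_closedBall (x := (0 : Par d)) (r := B)).subset fun x hx => ?_
      rw [mem_closedBall_zero_iff]
      exact hloc x (hypc_sub d hx)
    obtain ⟨D, hDH, hDc, hD1, hD2⟩ := approx hbH hε
    obtain ⟨R₃, η₃, hη₃, K₃⟩ := inner hd hDc fun x hx => hDH hx
    -- the size of `exp (δ n)`
    obtain ⟨Λ, hΛ⟩ : ∃ Λ : ℝ, Λ = 4 + |R₁| + |R₂| + |R₃| + 1 / η₁ + 1 / η₂ + 1 / η₃ + B := ⟨_, rfl⟩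
    have hx1 : 0 < 1 / η₁ := by positivity
    have hx2 : 0 < 1 / η₂ := by positivity
    have hx3 : 0 < 1 / η₃ := by positivity
    have hΛ0 : 0 < Λ := by rw [hΛ]; positivity
    filter_upwards [H', eventually_ge_atTop 1,
      Pool.Agent.N253.MS.ev_lin hδ0 (Real.log Λ)] with n hn hn1 hn2 c hc hcc
    have hn0 : (0 : ℝ) < n := by exact_mod_cast hn1
    have hP : Pool.Agent.H712R2.P d n c = 0 := Pool.Agent.N896.MB.per_zero hc
    obtain ⟨-, hne1, hne2, h1⟩ := hn c hP hcc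
    -- the scales
    obtain ⟨m, hm⟩ : ∃ m : ℂ, m ^ (d - 1) = (deriv ((f d c)^[n - 1]) c)⁻¹ :=
      IsAlgClosed.exists_pow_nat_eq _ (by omega)
    have hm1 : m ^ (d - 1) * deriv ((f d c)^[n - 1]) c = 1 := by
      rw [hm]
      exact inv_mul_cancel₀ hne1
    obtain ⟨l, hl⟩ : ∃ l : ℂ, l = m / deriv (Pool.Agent.H712R2.P d n) c := ⟨_, rfl⟩
    have hl1 : l * deriv (Pool.Agent.H712R2.P d n) c = m := by
      rw [hl]
      exact div_mul_cancel₀ _ hne2
    obtain ⟨⟨a1, a2⟩, ⟨a3, a4⟩, a5, a6, D₀, a7, a8, a9⟩ := h1 m l hm1 hl1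
    have hmn : 0 < ‖m‖ := (Real.exp_pos _).trans_le a1
    have hm0 : m ≠ 0 := norm_pos_iff.1 hmn
    have hl0 : l ≠ 0 := norm_pos_iff.1 ((Real.exp_pos _).trans_le a3)
    -- the exponentials
    obtain ⟨E, hE⟩ : ∃ E, E = Real.exp (δ * n) := ⟨_, rfl⟩
    have hE0 : 0 < E := by rw [hE]; exact Real.exp_pos _
    have hΛE : Λ ≤ E := by rw [hE]; exact (Real.log_le_iff_le_exp hΛ0).1 hn2.le
    rw [hΛ] at hΛE
    have q1 := abs_nonneg R₁
    have q2 := abs_nonneg R₂
    have q3 := abs_nonneg R₃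
    have hE4 : 4 ≤ E := by linarith
    have hER₁ : R₁ ≤ E := by linarith [le_abs_self R₁]
    have hER₂ : R₂ ≤ E := by linarith [le_abs_self R₂]
    have hER₃ : R₃ ≤ E := by linarith [le_abs_self R₃]
    have hEB : B ≤ E := by linarith
    have hinv : ∀ ηi : ℝ, 0 < ηi → 1 / ηi ≤ E → E⁻¹ ≤ ηi := by
      intro ηi h2 h3
      rw [div_le_iff₀ h2] at h3
      rw [inv_le_iff_one_le_mul₀ hE0]
      linarith
    have hEη₁ : E⁻¹ ≤ η₁ := hinv η₁ hη₁ (by linarith)
    have hEη₂ : E⁻¹ ≤ η₂ := hinv η₂ hη₂ (by linarith)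
    have hEη₃ : E⁻¹ ≤ η₃ := hinv η₃ hη₃ (by linarith)
    have hEi : Real.exp (-(δ * n)) = E⁻¹ := by rw [Real.exp_neg, hE]
    obtain ⟨E₁, hE₁⟩ : ∃ E₁, E₁ = Real.exp (δ₁ * n) := ⟨_, rfl⟩
    have hE₁E : E ^ 2 ≤ E₁ := by
      rw [hE, hE₁, ← Real.exp_nat_mul]
      apply Real.exp_le_exp.2
      have : 2 * δ * n ≤ δ₁ * n := by gcongr
      push_cast
      linarith
    have hE₁i : Real.exp (-(δ₁ * n)) = E₁⁻¹ := by rw [Real.exp_neg, hE₁]
    have hE₁0 : 0 < E₁ := by rw [hE₁]; exact Real.exp_pos _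
    have hEE : 4 * E ≤ E ^ 2 := by nlinarith
    have hEi0 : 0 < E⁻¹ := by positivity
    have hE₁' : E₁⁻¹ ≤ E⁻¹ / 4 := by
      have : 4 * E ≤ E₁ := hEE.trans hE₁E
      rw [div_eq_mul_inv, ← mul_inv]
      exact inv_anti₀ (by positivity) (by linarith)
    have hEle : E ≤ E₁ := by
      have : 4 * E ≤ E₁ := hEE.trans hE₁E
      linarith
    rw [← hE₁, hE₁i] at a5 a6
    have hmE : ‖m‖ ≤ E⁻¹ / E ^ 2 := by
      refine a5.trans ?_
      gcongr
    have hEinv1 : E⁻¹ ≤ 1 := by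
      rw [inv_le_one₀ hE0]
      linarith
    have hm1' : ‖m‖ ≤ E⁻¹ := by
      refine hmE.trans (div_le_self (by positivity) ?_)
      nlinarith
    have hm1'' : ‖m‖ ≤ 1 := hm1'.trans hEinv1
    -- the constant terms
    have hbex : ∀ q : Fin (d - 2) → ℂ, ∃ b : ℂ, (∀ i, ‖q i‖ ≤ E) →
        D₀ (exc d q) (fun _ => 0) b ∧ ‖b‖ ≤ E₁⁻¹ ∧
        ∀ t z : ℂ, ‖t‖ ≤ E₁ → ‖z‖ ≤ E₁ →
          (∀ j ≤ n, ‖(gg d m (exc d q) (fun _ => 0) (c + (b + l * t)))^[j] (m * z)‖ ≤ 4) ∧
          (∀ j, 1 ≤ j → j < n →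
            ‖m‖ * E₁ < ‖(gg d m (exc d q) (fun _ => 0) (c + (b + l * t)))^[j] (m * z)‖) ∧
          ‖(gg d m (exc d q) (fun _ => 0) (c + (b + l * t)))^[n] (m * z) -
            m * (Us d (exc d q) z + t)‖ ≤ ‖m‖ * E₁⁻¹ := by
      intro q
      by_cases hq : ∀ i, ‖q i‖ ≤ E
      · obtain ⟨b, hbD, hb, hb'⟩ := a7 (exc d q) (fun _ => 0)
          (exc_le (Real.exp_pos _).le fun i => (hq i).trans (by rw [← hE₁]; exact hEle))
          (fun i => by rw [norm_zero]; exact (Real.exp_pos _).le)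
        rw [← hE₁, hE₁i] at hb'
        rw [hE₁i] at hb
        exact ⟨b, fun _ => ⟨hbD, hb, hb'⟩⟩
      · exact ⟨0, fun h => absurd h hq⟩
    choose b hb using hbex
    have hcomp : ∀ x : Par d, ‖x‖ ≤ E → (∀ i, ‖x.1 i‖ ≤ E) ∧ ‖x.2‖ ≤ E := fun x hx =>
      ⟨fun i => (norm_le_pi_norm x.1 i).trans ((norm_fst_le x).trans hx), (norm_snd_le x).trans hx⟩
    obtain ⟨g, hg⟩ : ∃ g : Par d → ℂ → ℂ, g = fun x => Q d (ch d c m l b x) := ⟨_, rfl⟩
    have hgx : ∀ x, g x = gg d m (exc d x.1) (fun _ => 0) (c + (b x.1 + l * x.2)) := by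
      intro x
      rw [hg]
      simp only
      rw [Q_ch hd, add_assoc]
    have hgd : ∀ x, Differentiable ℂ (g x) := fun x => by
      rw [hg]
      exact Q_diff d _
    -- universality
    have hu : ∀ x : Par d, ‖x‖ ≤ E → ∀ z : ℂ, ‖z‖ ≤ E → (∀ j ≤ n, ‖(g x)^[j] (m * z)‖ ≤ 4) ∧
        (∀ j, 1 ≤ j → j < n → ‖m‖ * E < ‖(g x)^[j] (m * z)‖) ∧
        ‖(g x)^[n] (m * z) - m * Q d x z‖ ≤ ‖m‖ * E⁻¹ := by
      intro x hx z hz
      obtain ⟨h2, h3⟩ := hcomp x hx
      obtain ⟨-, -, h4⟩ := hb x.1 h2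
      obtain ⟨u1, u2, u3⟩ := h4 x.2 z (h3.trans hEle) (hz.trans hEle)
      rw [← hgx] at u1 u2 u3
      refine ⟨u1, fun j hj0 hj => lt_of_le_of_lt ?_ (u2 j hj0 hj), ?_⟩
      · gcongr
      · rw [Q_eq hd]
        refine u3.trans ?_
        gcongr
    obtain ⟨hh, hhd⟩ : ∃ hh : Par d → ℂ → ℂ, hh = fun x z => (g x)^[n] (m * z) / m := ⟨_, rfl⟩
    have hclose : ∀ x : Par d, ‖x‖ ≤ E → ∀ z : ℂ, ‖z‖ ≤ E → ‖hh x z - Q d x z‖ ≤ E⁻¹ := by
      intro x hx z hz
      have u3 := (hu x hx z hz).2.2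
      have h2 : hh x z - Q d x z = ((g x)^[n] (m * z) - m * Q d x z) / m := by
        rw [hhd]
        field_simp
      rw [h2, norm_div, div_le_iff₀ hmn]
      linarith
    have hit : ∀ (x : Par d) (j : ℕ) (z : ℂ), (hh x)^[j] z = (g x)^[n * j] (m * z) / m := by
      intro x j z
      rw [hhd]
      exact conj_iter hm0 n j z
    have hitn : ∀ (x : Par d) (j : ℕ) (z : ℂ), ‖(g x)^[n * j] (m * z)‖ = ‖(hh x)^[j] z‖ * ‖m‖ := by
      intro x j z
      rw [hit, norm_div, div_mul_cancel₀ _ hmn.ne']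
    have hmem : ∀ (R : ℝ) (x : Par d), x ∈ copy d n c m l b R ↔ ‖x‖ ≤ R ∧
        ∀ ω, dQ d x ω = 0 → ∀ j, ‖(hh x)^[j] ω‖ ≤ R := by
      intro R x
      unfold copy
      rw [mem_setOf_eq]
      refine and_congr_right fun _ => ?_
      refine forall_congr' fun ω => ?_
      rw [poly_Q, deriv_Q]
      refine imp_congr_right fun _ => forall_congr' fun j => ?_
      have h2 : poly d (chart d c m l b x) = g x := by rw [hg]; rfl
      rw [h2, hitn]
      exact mul_le_mul_iff_left₀ hmn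
    have hsmall : ∀ x : Par d, x ∈ copy d n c m l b E → ‖x‖ ≤ B ∧
        ∀ ω, dQ d x ω = 0 → ∀ j, ‖(hh x)^[j] ω‖ ≤ B := by
      intro x hx
      rw [hmem] at hx
      exact hiso x (hh x) E (fun z hz => (hclose x hx.1 z hz).trans hEinv1) hx.2
    have hBE : copy d n c m l b E = copy d n c m l b B := by
      ext x
      constructor
      · intro hx
        rw [hmem]
        exact hsmall x hx
      · intro hx
        rw [hmem] at hx ⊢
        exact ⟨hx.1.trans hEB, fun ω hω j => (hx.2 ω hω j).trans hEB⟩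
    have hcrit : ∀ (x : Par d) (z : ℂ), dQ d (ch d c m l b x) (m * z) = 0 ↔ dQ d x z = 0 := by
      intro x z
      rw [dQ_ch, mul_eq_zero]
      exact ⟨fun h => h.resolve_left (pow_ne_zero _ hm0), Or.inr⟩
    have hcrit' : ∀ (x : Par d) (y : ℂ), dQ d (ch d c m l b x) y = 0 → ∃ ω, dQ d x ω = 0 ∧
        y = m * ω := by
      intro x y hy
      have e : y = m * (y / m) := by field_simp
      refine ⟨y / m, ?_, e⟩
      rw [← hcrit, ← e]
      exact hy
    refine ⟨m, l, b, ⟨hm0, hl0, hm1, hl1, log_near' hn0 a1 a2, ?_⟩, ?_, ?_, ?_, ?_, ?_, ?_, ?_, ?_⟩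
    · rw [mul_div_assoc]
      exact log_near' hn0 a3 a4
    · -- universality
      intro x hx
      rw [← hE] at hx ⊢
      rw [hEi]
      obtain ⟨h2, h3⟩ := hcomp x hx
      obtain ⟨-, h4, -⟩ := hb x.1 h2
      refine ⟨by linarith, ?_, ?_, ?_⟩
      · have hlt : ‖l * x.2‖ ≤ E₁⁻¹ := by
          rw [norm_mul]
          calc ‖l‖ * ‖x.2‖ ≤ E₁⁻¹ / E₁ * E₁ := by
                gcongr
                exact h3.trans hEle
            _ = E₁⁻¹ := by field_simp
        rw [Prod.norm_def, max_le_iff]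
        constructor
        · rw [pi_norm_le_iff_of_nonneg hEi0.le]
          intro i
          have hi := i.2
          show ‖x.1 i * m ^ (d - 1 - i.1) - 0‖ ≤ E⁻¹
          rw [sub_zero, norm_mul, norm_pow]
          have h5 : ‖m‖ ^ (d - 1 - i.1) ≤ ‖m‖ := by
            calc ‖m‖ ^ (d - 1 - i.1) ≤ ‖m‖ ^ 1 :=
                  pow_le_pow_of_le_one (norm_nonneg m) hm1'' (by omega)
              _ = ‖m‖ := pow_one _
          calc ‖x.1 i‖ * ‖m‖ ^ (d - 1 - i.1) ≤ E * (E⁻¹ / E ^ 2) := by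
                gcongr
                · exact h2 i
                · exact h5.trans hmE
            _ = (E ^ 2)⁻¹ := by field_simp
            _ ≤ E⁻¹ := inv_anti₀ hE0 (by nlinarith)
        · show ‖c + b x.1 + l * x.2 - c‖ ≤ E⁻¹
          have h5 : c + b x.1 + l * x.2 - c = b x.1 + l * x.2 := by ring
          rw [h5]
          have h6 := norm_add_le (b x.1) (l * x.2)
          linarith
      · intro z
        rw [poly_Q, poly_Q, deriv_Q, deriv_Q, chart_ch]
        exact hcrit x z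
      · intro z hz
        obtain ⟨u1, u2, -⟩ := hu x hx z hz
        have h5 : poly d (chart d c m l b x) = g x := by rw [hg]; rfl
        rw [h5]
        refine ⟨?_, u1, fun j hj0 hj => ?_⟩
        · have h6 := hclose x hx z hz
          rw [hhd] at h6
          rw [one_div]
          exact h6
        · rw [mul_comm]
          exact u2 j hj0 hj
    · -- the chart
      intro q q' hq hq'
      rw [← hE] at hq hq'
      have hq1 : ∀ i, ‖q i‖ ≤ E := fun i => (norm_le_pi_norm q i).trans hq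
      have hq2 : ∀ i, ‖q' i‖ ≤ E := fun i => (norm_le_pi_norm q' i).trans hq'
      obtain ⟨d1, -, -⟩ := hb q hq1
      obtain ⟨d2, -, -⟩ := hb q' hq2
      constructor
      · have h5 := a9 (exc d q) (exc d q') (fun _ => 0) (b q) (b q') ‖q - q'‖
          (exc_le (Real.exp_pos _).le fun i => (hq1 i).trans (by rw [← hE₁]; exact hEle))
          (fun i => by rw [norm_zero]; exact (Real.exp_pos _).le) d1 d2 (fun i => by
            unfold exc
            split_ifs with hi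
            · exact norm_le_pi_norm (q - q') _
            · rw [sub_zero, norm_zero]
              exact norm_nonneg _)
        refine h5.trans ?_
        rw [hE₁i, hEi]
        gcongr
      · have h5 : ‖((q, 0) : Par d)‖ ≤ E := by
          rw [Prod.norm_def, max_le_iff]
          refine ⟨hq, ?_⟩
          simp only [norm_zero]
          exact hE0.le
        have h6 : poly d (chart d c m l b (q, 0)) = g (q, 0) := by rw [hg]; rfl
        have h7 := hgx (q, 0)
        simp only [mul_zero, add_zero] at h7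
        rw [h6]
        have h8 : (g (q, 0))^[n] 0 = 0 := by
          rw [h7]
          exact a8 _ _ _ d1
        have h9 := (hu (q, 0) h5 0 (by rw [norm_zero]; exact hE0.le)).2.1
        rw [mul_zero] at h9
        have h10 : Function.IsPeriodicPt (g (q, 0)) n 0 := h8
        have h11 : 0 < Function.minimalPeriod (g (q, 0)) 0 := h10.minimalPeriod_pos (by omega)
        have h12 : Function.minimalPeriod (g (q, 0)) 0 ≤ n := h10.minimalPeriod_le (by omega)
        refine le_antisymm h12 (not_lt.1 fun h13 => ?_)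
        have h14 := h9 _ h11 h13
        rw [Function.iterate_minimalPeriod, norm_zero] at h14
        exact absurd h14 (not_lt.2 (by positivity))
    · rw [← hE]
      exact hBE
    · -- the copy is in the connectedness locus
      intro x hx
      rw [← hBE, hmem] at hx
      rw [locus_eq, chart_ch]
      intro y hy
      obtain ⟨ω, hω, rfl⟩ := hcrit' x y hy
      refine ⟨4, fun j => ?_⟩
      have e1 : j = j % n + n * (j / n) := (Nat.mod_add_div j n).symm
      have h5 : Q d (ch d c m l b x) = g x := by rw [hg]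
      have e2 : (g x)^[j] (m * ω) = (g x)^[j % n] (m * (hh x)^[j / n] ω) := by
        conv_lhs => rw [e1, Function.iterate_add_apply]
        rw [hit]
        congr 1
        field_simp
      rw [h5, e2]
      exact (hu x hx.1 _ (hx.2 ω hω _)).1 _ (Nat.mod_lt _ (by omega)).le
    · -- the outer estimate
      intro x hx
      rw [locus_eq]
      rw [hmem] at hx
      have hxE : ‖x‖ ≤ E := hx.1.trans hEB
      exact K₂ x hx.1 (hh x) (fun z hz => (hclose x hxE z (by linarith)).trans hEη₂) hx.2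
    · -- the hyperbolic part
      intro y hy
      rw [hyp_eq] at hy
      obtain ⟨x, hx, hxy⟩ := hD1 y hy
      have hxB : ‖x‖ ≤ B := hloc x (hypc_sub d (hDH hx))
      have htr := K₃ x hx (hh x) (fun z hz =>
        (hclose x (hxB.trans hEB) z (by linarith)).trans hEη₃)
      refine ⟨x, ?_, ?_, hxy⟩
      · rw [← hBE, hmem]
        exact ⟨hxB.trans hEB, fun ω hω j => (trap_bd (htr ω hω) j).le.trans hER₃⟩
      · rw [hyp_eq, chart_ch]
        intro y hy
        obtain ⟨ω, hω, rfl⟩ := hcrit' x y hy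
        have h5 : Q d (ch d c m l b x) = g x := by rw [hg]
        rw [h5]
        have h6 := htr ω hω
        rw [hhd] at h6
        exact attr_of_trap (hgd x) hm0 (by omega) h6
    · intro x hx
      rw [hyp_eq] at hx
      have hxD := hD2 x hx
      have hxB : ‖x‖ ≤ B := hloc x (hypc_sub d (hDH hxD))
      have htr := K₃ x hxD (hh x) (fun z hz =>
        (hclose x (hxB.trans hEB) z (by linarith)).trans hEη₃)
      refine ⟨?_, ?_⟩
      · rw [← hBE, hmem]
        exact ⟨hxB.trans hEB, fun ω hω j => (trap_bd (htr ω hω) j).le.trans hER₃⟩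
      · rw [hyp_eq, chart_ch]
        intro y hy
        obtain ⟨ω, hω, rfl⟩ := hcrit' x y hy
        have h5 : Q d (ch d c m l b x) = g x := by rw [hg]
        rw [h5]
        have h6 := htr ω hω
        rw [hhd] at h6
        exact attr_of_trap (hgd x) hm0 (by omega) h6
    · -- the cycles
      intro x hx
      rw [locus_eq] at hx
      have hxB : ‖x‖ ≤ B := hloc x hx
      have hxE : ‖x‖ ≤ E := hxB.trans hEB
      have h5 : poly d (chart d c m l b x) =
          gg d m (exc d x.1) (fun _ => 0) (c + (b x.1 + l * x.2)) := by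
        rw [← hgx, hg]
        rfl
      have h6 : poly d x = QQ d (exc d x.1, x.2) := Q_QQ hd x
      rw [h5, h6]
      intro a ha hda
      obtain ⟨α, b1, b2, b3, -⟩ := K₁ (exc d x.1, x.2) ⟨x, mem_closedBall_zero_iff.2 hxB, rfl⟩ a
        ha hda n (c + (b x.1 + l * x.2)) m (fun _ => 0) (by omega) hm0
        (fun y _ => by
          unfold Vs
          simp) (by
          intro z hz
          obtain ⟨u1, u2, u3⟩ := hu x hxE z (by linarith)
          rw [hgx] at u1 u2 u3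
          refine ⟨u1, fun j hj0 hj => ?_, ?_⟩
          · refine le_trans ?_ (u2 j hj0 hj).le
            gcongr
          · rw [← h6]
            refine u3.trans ?_
            gcongr)
      refine ⟨α, ?_, b2, b3⟩
      have h2 : α / m - a = (α - m * a) / m := by field_simp
      rw [h2, norm_div, div_le_iff₀ hmn]
      exact b1

/-- exponentially many centres -/
theorem many {d : ℕ} (hd : 2 ≤ d) {χ : ℝ} {c₀ : ℂ} (h : Pool.Agent.Y298.CA.Lyap d χ c₀) {δ' : ℝ}
    (h0 : 0 < δ') (h1 : δ' < χ) (hex : ∀ᶠ n : ℕ in atTop, ∀ c : ℂ,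
      Pool.Agent.H712R2.P d n c = 0 → ‖c - c₀‖ ≤ Real.exp (-((χ - δ') * n)) → c ∈ centres d n) :
    ∃ γ : ℝ, 0 < γ ∧ ∀ᶠ n : ℕ in atTop, Real.exp (γ * n) ≤
      ({c | c ∈ centres d n ∧ ‖c - c₀‖ ≤ Real.exp (-((χ - δ') * n))}.ncard : ℝ) := by
  have hχ := h.1
  have hd1 : (1 : ℝ) < d := by exact_mod_cast (by omega : 1 < d)
  have hL : 0 < Real.log d := Real.log_pos hd1
  have h2 := Pool.Agent.R240.growth hd h (β := χ - δ') (by linarith) (by linarith)
  have h3 : 0 < (1 - (χ - δ') / χ) * Real.log d := by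
    apply mul_pos _ hL
    rw [sub_pos, div_lt_one hχ]
    linarith
  refine ⟨(1 - (χ - δ') / χ) * Real.log d / 2, by positivity, ?_⟩
  filter_upwards [h2.eventually_const_lt (half_lt_self h3), hex, eventually_ge_atTop 1] with n
    hn hn' hn1
  have hn0 : (0 : ℝ) < n := by exact_mod_cast hn1
  rw [lt_div_iff₀ hn0] at hn
  obtain ⟨N, rfl⟩ : ∃ N, n = N + 1 := ⟨n - 1, by omega⟩
  have hsub : Pool.Agent.R240.Cen d (N + 1) c₀ (Real.exp (-((χ - δ') * (N + 1 : ℕ)))) ⊆
      {c | c ∈ centres d (N + 1) ∧ ‖c - c₀‖ ≤ Real.exp (-((χ - δ') * (N + 1 : ℕ)))} := by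
    rintro c ⟨hc1, hc2⟩
    rw [mem_ball, dist_eq_norm] at hc1
    exact ⟨hn' c hc2 hc1.le, hc1.le⟩
  have hfin : {c | c ∈ centres d (N + 1) ∧
      ‖c - c₀‖ ≤ Real.exp (-((χ - δ') * (N + 1 : ℕ)))}.Finite := by
    refine (Cn_fin hd (n := N + 1) (by omega)).subset ?_
    rintro c ⟨hc, -⟩
    exact hc
  have hle : ((Pool.Agent.R240.Cen d (N + 1) c₀
      (Real.exp (-((χ - δ') * (N + 1 : ℕ))))).ncard : ℝ) ≤
      ({c | c ∈ centres d (N + 1) ∧
        ‖c - c₀‖ ≤ Real.exp (-((χ - δ') * (N + 1 : ℕ)))}.ncard : ℝ) := by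
    exact_mod_cast ncard_le_ncard hsub hfin
  refine le_trans ?_ hle
  have hpos : (0 : ℝ) < (Pool.Agent.R240.Cen d (N + 1) c₀
      (Real.exp (-((χ - δ') * (N + 1 : ℕ))))).ncard := by
    by_contra hcon
    have h4 : ((Pool.Agent.R240.Cen d (N + 1) c₀
      (Real.exp (-((χ - δ') * (N + 1 : ℕ))))).ncard : ℝ) = 0 :=
      le_antisymm (not_lt.1 hcon) (by positivity)
    rw [h4, Real.log_zero] at hn
    have : 0 < (1 - (χ - δ') / χ) * Real.log d / 2 * ((N + 1 : ℕ) : ℝ) := by positivity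
    linarith
  exact (Real.le_log_iff_exp_le hpos).1 hn.le

theorem result (d : ℕ) (hd : 2 ≤ d) : ∃ B : ℝ, 1 ≤ B ∧ (∀ x ∈ locus d, ‖x‖ ≤ B) ∧
    -- near `z ^ d + c₀`, `c₀` a parameter with a Lyapunov exponent `χ > 0`
    (∀ χ η : ℝ, 0 < χ → 0 < η → ∃ δ : ℝ, 0 < δ ∧ ∀ c₀ ∈ multibrotSet d,
      Tendsto (fun n : ℕ => Real.log ‖deriv ((f d c₀)^[n]) c₀‖ / n) atTop (𝓝 χ) →
      ∃ δ' : ℝ, 0 < δ' ∧ δ' < χ ∧
        (∃ γ : ℝ, 0 < γ ∧ ∀ᶠ n : ℕ in atTop, Real.exp (γ * n) ≤
          ({c | c ∈ centres d n ∧ ‖c - c₀‖ ≤ Real.exp (-((χ - δ') * n))}.ncard : ℝ)) ∧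
        ∀ p : ℕ, 0 < p → ∀ ε : ℝ, 0 < ε → ∀ᶠ n : ℕ in atTop, ∀ c ∈ centres d n,
          ‖c - c₀‖ ≤ Real.exp (-((χ - δ') * n)) → Perfect d B χ η δ p ε n c) ∧
    -- near `z ^ d + c` for most superattracting parameters `c` of period `n`
    (∀ η : ℝ, 0 < η → ∃ δ : ℝ, 0 < δ ∧ ∀ p : ℕ, 0 < p → ∀ ε : ℝ, 0 < ε →
      Tendsto (fun n : ℕ => ({c | c ∈ centres d n ∧
        Perfect d B (Real.log d) η δ p ε n c}.ncard : ℝ) / (centres d n).ncard) atTop (𝓝 1)) := by
  obtain ⟨β, hβ⟩ := Pool.Agent.H713R2.exists_beta (d := d) hd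
  have hψ := Pool.Agent.H713R2.exteriorMap_of_beta hβ
  have hd1 : (1 : ℝ) < d := by exact_mod_cast (by omega : 1 < d)
  obtain ⟨B₁, hB₁, hiso⟩ := isolated (d := d) hd
  obtain ⟨B₂, -, hloc⟩ := locus_bdd (d := d) hd
  have hiso' : ∀ (x : Par d) (h : ℂ → ℂ) (S : ℝ),
      (∀ z : ℂ, ‖z‖ ≤ S → ‖h z - Q d x z‖ ≤ 1) →
      (∀ ω, dQ d x ω = 0 → ∀ j, ‖h^[j] ω‖ ≤ S) →
      ‖x‖ ≤ max B₁ B₂ ∧ ∀ ω, dQ d x ω = 0 → ∀ j, ‖h^[j] ω‖ ≤ max B₁ B₂ := by
    intro x h S h1 h2
    obtain ⟨h3, h4⟩ := hiso x h S h1 h2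
    exact ⟨h3.trans (le_max_left _ _), fun ω hω j => (h4 ω hω j).trans (le_max_left _ _)⟩
  have hloc' : ∀ x ∈ Pool.Agent.N772.CL.locus d, ‖x‖ ≤ max B₁ B₂ := fun x hx =>
    (hloc x hx).trans (le_max_right _ _)
  refine ⟨max B₁ B₂, hB₁.trans (le_max_left _ _), ?_, ?_, ?_⟩
  · rw [locus_eq]
    exact hloc'
  · intro χ η hχ hη
    obtain ⟨δ, hδ, H⟩ := univ hd (hB₁.trans (le_max_left _ _)) hiso' hloc' hχ hη
    refine ⟨δ, hδ, fun c₀ hc₀ hlim => ?_⟩
    have hL : Pool.Agent.Y298.CA.Lyap d χ c₀ := ⟨hχ, hc₀, hlim⟩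
    obtain ⟨δ', h1, h2, h3, h4⟩ := H c₀ hL
    exact ⟨δ', h1, h2, many hd hL h1 h2 h3, h4⟩
  · intro η hη
    obtain ⟨δ, hδ, H⟩ := univ hd (hB₁.trans (le_max_left _ _)) hiso' hloc' (Real.log_pos hd1) hη
    refine ⟨δ, hδ, fun p hp ε hε => ?_⟩
    apply most_tendsto hd hψ (fun n c => Perfect d (max B₁ B₂) (Real.log d) η δ p ε n c)
    filter_upwards [ae_lyap hd hψ] with θ hθ
    obtain ⟨δ', h1, h2, h3, h4⟩ := H _ hθ
    exact ⟨δ', h1, h4 p hp ε hε⟩

end Pool.Agent.Results.MP_28f8a1_an.PerfectCopiesOfLocus
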