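import Mathlib
import Pool.Prelude.Def_F_c31e40fa
import Pool.Agent.Y272.GA.Brg
import Pool.Agent.Y298.EX.All

/-!
# Sharp exponents for the density of hyperbolicity near unicritical polynomials

Let `d ≥ 2` and let `c₀` be a parameter of the Multibrot set `M_d` at which the critical value has a
Lyapunov exponent `χ > 0` (this is so at almost every external ray). In the space `ℂ ^ (d + 1)` of ALL
polynomials of degree `d` near `z ^ d + c₀` we determine exponents which do not depend on `χ`: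

* in EVERY family of translations `T + t`, `|t| ≤ C r`, of a polynomial `T` at distance at most `r`,
  the polynomials with a non-escaping critical point have area `r ^ (2 d / (d - 1) + o(1))`, and discs
  of such polynomials have radius at most `r ^ (d / (d - 1) + o(1))`; both are attained by polynomials
  with a critical point attracted by a sink;
* the volume of the polynomials with a non-escaping critical point at distance at most `r` is
  `r ^ (2 (d + 1) + 2 / (d - 1) + o(1))`, and the largest ball of such polynomials has radius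
  `r ^ (d / (d - 1) + o(1))`; the same holds for the hyperbolic polynomials all of whose critical
  points are attracted by one sink, and for all sets in between (connected Julia set);
* the largest distance to the shift locus is `r ^ (d / (d - 1) + o(1))`.

The upper bounds come from the starting result `ColletEckmannUnicritical`. The lower bounds are new as
results; they use `Pool/Agent/Y298/EX`, where periodic critical points are found in all families of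
translations.
-/

set_option autoImplicit false

open MeasureTheory Filter Metric Topology Set

namespace Pool.Agent.Results.MP_28f8a1_an.SharpExponents

open Pool.Agent.H713R2 (IsExteriorMap)

/-- The polynomial `z ^ d + ∑ b i z ^ i` (the sum over `i ≤ d`). -/
def T (d : ℕ) (b : Fin (d + 1) → ℂ) (z : ℂ) : ℂ := z ^ d + ∑ i : Fin (d + 1), b i * z ^ (i : ℕ)

/-- The point of the space of the polynomials which corresponds to `z ^ d + c`. -/
def uni (d : ℕ) (c : ℂ) : Fin (d + 1) → ℂ := Pi.single 0 c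

/-- The polynomials all of whose critical points escape to infinity. -/
def shiftLocus (d : ℕ) : Set (Fin (d + 1) → ℂ) :=
  {b | ∀ ω : ℂ, deriv (T d b) ω = 0 → Tendsto (fun n => ‖(T d b)^[n] ω‖) atTop atTop}

/-- The polynomials with a critical point which is attracted by a sink. -/
def someSink (d : ℕ) : Set (Fin (d + 1) → ℂ) :=
  {b | ∃ (n : ℕ) (x : ℂ), 0 < n ∧ (T d b)^[n] x = x ∧ ‖deriv ((T d b)^[n]) x‖ < 1 ∧
    ∃ ω : ℂ, deriv (T d b) ω = 0 ∧ Tendsto (fun k : ℕ => (T d b)^[n * k] ω) atTop (𝓝 x)}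

/-- The polynomials with a sink which attracts all critical points. -/
def oneSink (d : ℕ) : Set (Fin (d + 1) → ℂ) :=
  {b | ∃ (n : ℕ) (x : ℂ), 0 < n ∧ (T d b)^[n] x = x ∧ ‖deriv ((T d b)^[n]) x‖ < 1 ∧
    ∀ ω : ℂ, deriv (T d b) ω = 0 → Tendsto (fun k : ℕ => (T d b)^[n * k] ω) atTop (𝓝 x)}

/-- The radius of the largest ball in a set of polynomials. -/
noncomputable def inradius {d : ℕ} (S : Set (Fin (d + 1) → ℂ)) : ℝ :=
  sSup {ρ : ℝ | ∃ b : Fin (d + 1) → ℂ, ball b ρ ⊆ S}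

/-- The largest distance to the shift locus of the polynomials in the ball of radius `r`. -/
noncomputable def depth (d : ℕ) (c₀ : ℂ) (r : ℝ) : ℝ :=
  sSup {x : ℝ | ∃ b ∈ closedBall (uni d c₀) r, infDist b (shiftLocus d) = x}

/-- The exact exponents at the polynomial `z ^ d + c₀`. -/
structure Exact (d : ℕ) (c₀ : ℂ) : Prop where
  /-- the families of translations -/
  slices : ∀ ε : ℝ, 0 < ε → ∃ C : ℝ, 1 ≤ C ∧ ∀ᶠ r : ℝ in 𝓝[>] 0,
    ∀ b : Fin (d + 1) → ℂ, ‖b - uni d c₀‖ ≤ r →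
    ∀ S : Set (Fin (d + 1) → ℂ), someSink d ⊆ S → S ⊆ (shiftLocus d)ᶜ →
      ENNReal.ofReal (r ^ (2 * d / ((d : ℝ) - 1) + ε)) ≤
        volume {t : ℂ | ‖t‖ ≤ C * r ∧ b + Pi.single 0 t ∈ S} ∧
      volume {t : ℂ | ‖t‖ ≤ C * r ∧ b + Pi.single 0 t ∈ S} ≤
        ENNReal.ofReal (r ^ (2 * d / ((d : ℝ) - 1) - ε)) ∧
      (∃ t₀ : ℂ, ball t₀ (r ^ (d / ((d : ℝ) - 1) + ε)) ⊆
        {t : ℂ | ‖t‖ ≤ C * r ∧ b + Pi.single 0 t ∈ S}) ∧
      ∀ (t₀ : ℂ) (ρ : ℝ), ball t₀ ρ ⊆ {t : ℂ | ‖t‖ ≤ C * r ∧ b + Pi.single 0 t ∈ S} →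
        ρ ≤ r ^ (d / ((d : ℝ) - 1) - ε)
  /-- the volume -/
  vol : ∀ S : Set (Fin (d + 1) → ℂ), oneSink d ⊆ S → S ⊆ (shiftLocus d)ᶜ →
    Tendsto (fun r : ℝ => Real.log (volume (S ∩ closedBall (uni d c₀) r)).toReal / Real.log r)
      (𝓝[>] 0) (𝓝 (2 * ((d : ℝ) + 1) + 2 / ((d : ℝ) - 1)))
  /-- the largest ball -/
  inr : ∀ S : Set (Fin (d + 1) → ℂ), oneSink d ⊆ S → S ⊆ (shiftLocus d)ᶜ →
    Tendsto (fun r : ℝ => Real.log (inradius (S ∩ closedBall (uni d c₀) r)) / Real.log r)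
      (𝓝[>] 0) (𝓝 (d / ((d : ℝ) - 1)))
  /-- the distance to the shift locus -/
  dist : Tendsto (fun r : ℝ => Real.log (depth d c₀ r) / Real.log r) (𝓝[>] 0)
    (𝓝 (d / ((d : ℝ) - 1)))

open Pool.Agent.Y298.EX Pool.Agent.Y272.GA

variable {d : ℕ} {c₀ : ℂ}

theorem deriv_T (b : Fin (d + 1) → ℂ) (z : ℂ) : deriv (T d b) z = dF d b z := deriv_FF b z

theorem not_shift (b : Fin (d + 1) → ℂ) : b ∈ (shiftLocus d)ᶜ ↔ b ∈ NE d := by
  unfold shiftLocus NE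
  simp only [mem_compl_iff, mem_ofPred_eq, deriv_T]
  push Not
  exact Iff.rfl

theorem compl_shift : (shiftLocus d)ᶜ = NE d := Set.ext not_shift

theorem oneSink_eq : oneSink d = OS d := by
  unfold oneSink OS
  simp only [deriv_T]
  rfl

theorem nonesc_of_tendsto {b : Fin (d + 1) → ℂ} {ω x : ℂ} {n : ℕ} (hn : 0 < n)
    (h : Tendsto (fun k : ℕ => (T d b)^[n * k] ω) atTop (𝓝 x)) :
    ¬ Tendsto (fun n => ‖(T d b)^[n] ω‖) atTop atTop := by
  intro hcon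
  have h1 := h.norm
  have h2 : Tendsto (fun k : ℕ => n * k) atTop atTop := tendsto_id.const_mul_atTop' hn
  exact not_tendsto_nhds_of_tendsto_atTop (hcon.comp h2) _ h1

/-- Periodic traps in all families of translations. -/
theorem slice_low (hd : 2 ≤ d) {χ : ℝ} (h : Pool.Agent.Y298.CA.Lyap d χ c₀) {ε : ℝ} (hε : 0 < ε) :
    ∃ C : ℝ, 1 ≤ C ∧ ∀ᶠ r : ℝ in 𝓝[>] 0, ∀ b : Fin (d + 1) → ℂ, ‖b - uni d c₀‖ ≤ r →
      ∃ t₀ : ℂ, ball t₀ (r ^ (d / ((d : ℝ) - 1) + ε)) ⊆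
        {t : ℂ | ‖t‖ ≤ C * r ∧ b + Pi.single 0 t ∈ someSink d} := by
  have hdR : (2 : ℝ) ≤ d := by exact_mod_cast hd
  have hd1 : 0 < (d : ℝ) - 1 := by linarith
  obtain ⟨C, r₀, hC, hr₀, H⟩ := low_all d χ c₀ hd h ε hε
  refine ⟨C + 1, by linarith, ?_⟩
  have hmem0 : ∀ᶠ r : ℝ in 𝓝[>] 0, 0 < r := self_mem_nhdsWithin
  have hlt1 : ∀ᶠ r : ℝ in 𝓝[>] 0, r < 1 :=
    mem_nhdsWithin_of_mem_nhds (gt_mem_nhds (by norm_num : (0 : ℝ) < 1))
  have hltr : ∀ᶠ r : ℝ in 𝓝[>] 0, r < r₀ := mem_nhdsWithin_of_mem_nhds (gt_mem_nhds hr₀)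
  have hev5 : ∀ᶠ r : ℝ in 𝓝[>] 0, ((d : ℝ) + 1) ^ 2 * r ^ (1 : ℝ) < 1 := ev_small one_pos one_pos
  have hev6 : ∀ᶠ r : ℝ in 𝓝[>] 0, (K8 d) * r ^ (1 : ℝ) < 1 := ev_small one_pos one_pos
  filter_upwards [hmem0, hlt1, hltr, hev5, hev6] with r hr0 hr1 hrr e5 e6 b hb
  rw [Real.rpow_one] at e5 e6
  obtain ⟨κ, hκ⟩ := exists_crit hd hb e6
  have hκ1 : ‖κ‖ ≤ 1 := by
    by_contra hcon
    rw [not_le] at hcon
    refine crit_le_one (c₀ := c₀) hd ?_ hcon.le hκ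
    have h1 : ‖b - ee d c₀‖ ≤ r := hb
    calc ‖b - ee d c₀‖ * ((d : ℝ) + 1) ^ 2 ≤ r * ((d : ℝ) + 1) ^ 2 := by gcongr
      _ ≤ 1 := by linarith
  obtain ⟨t₁, n, ht₁, htr⟩ := H r hr0 hrr.le b hb κ hκ hκ1
  have hη : r ^ ((d : ℝ) / ((d : ℝ) - 1) + ε) ≤ r := by
    have h2 : 1 ≤ (d : ℝ) / ((d : ℝ) - 1) + ε := by
      have : 1 ≤ (d : ℝ) / ((d : ℝ) - 1) := by
        rw [le_div_iff₀ hd1]
        linarith
      linarith
    calc r ^ ((d : ℝ) / ((d : ℝ) - 1) + ε) ≤ r ^ (1 : ℝ) :=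
          Real.rpow_le_rpow_of_exponent_ge hr0 hr1.le h2
      _ = r := Real.rpow_one r
  refine ⟨t₁, fun t ht => ?_⟩
  rw [mem_ball, dist_eq_norm] at ht
  have hdiff : (b + Pi.single 0 t) - (b + Pi.single 0 t₁) = Pi.single 0 (t - t₁) := by
    rw [add_sub_add_left_eq_sub, ← Pi.single_sub]
  have hclose : ‖(b + Pi.single 0 t) - (b + Pi.single 0 t₁)‖ ≤
      r ^ ((d : ℝ) / ((d : ℝ) - 1) + ε) := by
    rw [hdiff, Pi.norm_single]
    exact ht.le
  refine ⟨?_, ?_⟩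
  · have h3 : ‖t‖ ≤ ‖t - t₁‖ + ‖t₁‖ := by
      have := norm_add_le (t - t₁) t₁
      rwa [sub_add_cancel] at this
    linarith
  · have hρ0 : 0 < r ^ (1 / ((d : ℝ) - 1) + ε / 2) := Real.rpow_pos_of_pos hr0 _
    have htr' := htr (b + Pi.single 0 t)
    obtain ⟨x₀, hx₀⟩ : ∃ x₀, x₀ = ‖(b + Pi.single 0 t) - (b + Pi.single 0 t₁)‖ := ⟨_, rfl⟩
    obtain ⟨y₀, hy₀⟩ : ∃ y₀, y₀ = r ^ ((d : ℝ) / ((d : ℝ) - 1) + ε) := ⟨_, rfl⟩
    rw [← hx₀, ← hy₀] at htr' hclose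
    replace htr' := htr' hclose
    generalize r ^ (1 / ((d : ℝ) - 1) + ε / 2) = ρ at hρ0 htr'
    obtain ⟨B, hB⟩ : ∃ B : Fin (d + 1) → ℂ, B = b + Pi.single 0 t := ⟨_, rfl⟩
    rw [← hB] at htr' ⊢
    obtain ⟨x, -, h4, h5, h6⟩ := Pool.Agent.Y620.EX.t_sink (FF d B) κ ρ n (differentiable_FF B)
      hρ0 htr'
    refine ⟨n + 1, x, Nat.succ_pos n, h4, h5, κ, ?_, h6 κ (mem_closedBall_self hρ0.le)⟩
    rw [deriv_T, hB]
    have h7 : dF d (b + Pi.single 0 t) κ = dF d b κ := by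
      unfold dF
      congr 1
      refine Finset.sum_congr rfl fun i _ => ?_
      refine Fin.cases ?_ (fun j => ?_) i
      · simp
      · rw [Pi.add_apply, Pi.single_eq_of_ne (Fin.succ_ne_zero j), add_zero]
    rw [h7]
    exact hκ

theorem someSink_sub : someSink d ⊆ (shiftLocus d)ᶜ := by
  rintro b ⟨n, x, hn, -, -, ω, hω, h⟩ hb
  exact nonesc_of_tendsto hn h (hb ω hω)

/-- constants are absorbed by powers -/
theorem absorb {C E ε : ℝ} (hε : 0 < ε) :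
    ∀ᶠ r : ℝ in 𝓝[>] 0, C * r ^ (E - ε / 2) ≤ r ^ (E - ε) := by
  have hmem0 : ∀ᶠ r : ℝ in 𝓝[>] 0, 0 < r := self_mem_nhdsWithin
  filter_upwards [hmem0, ev_small (C := C) (by positivity : 0 < ε / 2) one_pos] with r hr0 h1
  calc C * r ^ (E - ε / 2) = (C * r ^ (ε / 2)) * r ^ (E - ε) := by
        rw [mul_assoc, ← Real.rpow_add hr0]
        congr 2
        ring
    _ ≤ 1 * r ^ (E - ε) := by gcongr
    _ = r ^ (E - ε) := one_mul _

/-- The upper bound of the area in the families of translations. -/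
theorem slice_up (hd : 2 ≤ d) {χ : ℝ} (h : Pool.Agent.Y298.CA.Lyap d χ c₀) (hc : ‖c₀‖ < 2) {C : ℝ}
    (hC : 1 ≤ C) {ε : ℝ} (hε : 0 < ε) :
    ∀ᶠ r : ℝ in 𝓝[>] 0, ∀ b : Fin (d + 1) → ℂ, ‖b - uni d c₀‖ ≤ r →
      volume {t : ℂ | ‖t‖ ≤ C * r ∧ b + Pi.single 0 t ∈ (shiftLocus d)ᶜ} ≤
        ENNReal.ofReal (r ^ (2 * d / ((d : ℝ) - 1) - ε)) := by
  have hdR : (2 : ℝ) ≤ d := by exact_mod_cast hd
  have hd1 : 0 < (d : ℝ) - 1 := by linarith
  obtain ⟨E, hE⟩ : ∃ E : ℝ, E = 2 * (d : ℝ) / ((d : ℝ) - 1) := ⟨_, rfl⟩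
  have hE0 : 0 < E := by rw [hE]; positivity
  rw [← hE]
  obtain ⟨E', hE'⟩ : ∃ E' : ℝ, E' = max 0 (E - ε / 2) := ⟨_, rfl⟩
  have hE'0 : 0 ≤ E' := by rw [hE']; exact le_max_left _ _
  have hE'E : E' < 2 * (d : ℝ) / ((d : ℝ) - 1) := by
    rw [← hE, hE']
    exact max_lt hE0 (by linarith)
  obtain ⟨K, e, hK, he, H⟩ := area_family hd hc (ar_lyap hd h hE'0 hE'E)
  have hC0 : 0 < C := by linarith
  have hmem0 : ∀ᶠ r : ℝ in 𝓝[>] 0, 0 < r := self_mem_nhdsWithin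
  have hlt1 : ∀ᶠ r : ℝ in 𝓝[>] 0, r < 1 :=
    mem_nhdsWithin_of_mem_nhds (gt_mem_nhds (by norm_num : (0 : ℝ) < 1))
  have hlte : ∀ᶠ r : ℝ in 𝓝[>] 0, r < e / C := mem_nhdsWithin_of_mem_nhds (gt_mem_nhds (by positivity))
  filter_upwards [hmem0, hlt1, hlte, absorb (C := K * C ^ E') (E := E) hε] with r hr0
    hr1 hre hab b hb
  rw [lt_div_iff₀ hC0] at hre
  have h1 := H (C * r) (by positivity) (by linarith) b (hb.trans (by nlinarith))
  rw [compl_shift]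
  refine h1.trans (ENNReal.ofReal_le_ofReal ?_)
  refine le_trans ?_ hab
  rw [Real.mul_rpow hC0.le hr0.le, ← mul_assoc]
  have h2 : r ^ E' ≤ r ^ (E - ε / 2) := by
    apply Real.rpow_le_rpow_of_exponent_ge hr0 hr1.le
    rw [hE']
    exact le_max_right _ _
  exact mul_le_mul_of_nonneg_left h2 (by positivity)

/-- The area and the radius of a disc. -/
theorem rad_le {t₀ : ℂ} {ρ R : ℝ} {S : Set ℂ} (hR : 0 ≤ R) (h : ball t₀ ρ ⊆ S)
    (hS : volume S ≤ ENNReal.ofReal (R ^ 2)) : ρ ≤ R := by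
  rcases le_or_gt ρ 0 with h0 | h0
  · exact h0.trans hR
  have h1 : volume (ball t₀ ρ) ≤ ENNReal.ofReal (R ^ 2) := (measure_mono h).trans hS
  rw [Pool.Agent.Y298.CA.vol_b' _ h0.le, ENNReal.ofReal_le_ofReal_iff (by positivity)] at h1
  have h2 : ρ ^ 2 ≤ R ^ 2 := by
    have := Real.pi_gt_three
    nlinarith [sq_nonneg ρ]
  exact le_of_sq_le_sq h2 hR

/-- The families of translations. -/
theorem slices (hd : 2 ≤ d) {χ : ℝ} (h : Pool.Agent.Y298.CA.Lyap d χ c₀) (hc : ‖c₀‖ < 2) {ε : ℝ}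
    (hε : 0 < ε) : ∃ C : ℝ, 1 ≤ C ∧ ∀ᶠ r : ℝ in 𝓝[>] 0,
    ∀ b : Fin (d + 1) → ℂ, ‖b - uni d c₀‖ ≤ r →
    ∀ S : Set (Fin (d + 1) → ℂ), someSink d ⊆ S → S ⊆ (shiftLocus d)ᶜ →
      ENNReal.ofReal (r ^ (2 * d / ((d : ℝ) - 1) + ε)) ≤
        volume {t : ℂ | ‖t‖ ≤ C * r ∧ b + Pi.single 0 t ∈ S} ∧
      volume {t : ℂ | ‖t‖ ≤ C * r ∧ b + Pi.single 0 t ∈ S} ≤
        ENNReal.ofReal (r ^ (2 * d / ((d : ℝ) - 1) - ε)) ∧
      (∃ t₀ : ℂ, ball t₀ (r ^ (d / ((d : ℝ) - 1) + ε)) ⊆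
        {t : ℂ | ‖t‖ ≤ C * r ∧ b + Pi.single 0 t ∈ S}) ∧
      ∀ (t₀ : ℂ) (ρ : ℝ), ball t₀ ρ ⊆ {t : ℂ | ‖t‖ ≤ C * r ∧ b + Pi.single 0 t ∈ S} →
        ρ ≤ r ^ (d / ((d : ℝ) - 1) - ε) := by
  obtain ⟨C, hC, hlow⟩ := slice_low hd h (show 0 < ε / 2 by positivity)
  refine ⟨C, hC, ?_⟩
  have hmem0 : ∀ᶠ r : ℝ in 𝓝[>] 0, 0 < r := self_mem_nhdsWithin
  have hlt1 : ∀ᶠ r : ℝ in 𝓝[>] 0, r < 1 :=
    mem_nhdsWithin_of_mem_nhds (gt_mem_nhds (by norm_num : (0 : ℝ) < 1))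
  filter_upwards [hmem0, hlt1, hlow, slice_up hd h hc hC (show 0 < ε by positivity)] with r hr0 hr1
    h1 h2 b hb S hS1 hS2
  obtain ⟨t₀, ht₀⟩ := h1 b hb
  have h3 : {t : ℂ | ‖t‖ ≤ C * r ∧ b + Pi.single 0 t ∈ someSink d} ⊆
      {t : ℂ | ‖t‖ ≤ C * r ∧ b + Pi.single 0 t ∈ S} := fun t ht => ⟨ht.1, hS1 ht.2⟩
  have h4 : {t : ℂ | ‖t‖ ≤ C * r ∧ b + Pi.single 0 t ∈ S} ⊆
      {t : ℂ | ‖t‖ ≤ C * r ∧ b + Pi.single 0 t ∈ (shiftLocus d)ᶜ} := fun t ht => ⟨ht.1, hS2 ht.2⟩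
  have hup := (measure_mono h4).trans (h2 b hb)
  refine ⟨?_, hup, ?_, ?_⟩
  · have h5 : volume (ball t₀ (r ^ (d / ((d : ℝ) - 1) + ε / 2))) ≤
        volume {t : ℂ | ‖t‖ ≤ C * r ∧ b + Pi.single 0 t ∈ S} := measure_mono (ht₀.trans h3)
    refine le_trans ?_ h5
    rw [Pool.Agent.Y298.CA.vol_b' _ (by positivity)]
    apply ENNReal.ofReal_le_ofReal
    have h6 : r ^ (2 * d / ((d : ℝ) - 1) + ε) = (r ^ (d / ((d : ℝ) - 1) + ε / 2)) ^ 2 := by
      rw [← Real.rpow_natCast, ← Real.rpow_mul hr0.le]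
      congr 1
      push_cast
      ring
    rw [h6]
    have := Real.pi_gt_three
    nlinarith [sq_nonneg (r ^ (d / ((d : ℝ) - 1) + ε / 2))]
  · refine ⟨t₀, (ball_subset_ball ?_).trans (ht₀.trans h3)⟩
    apply Real.rpow_le_rpow_of_exponent_ge hr0 hr1.le
    linarith
  · intro t₁ ρ hρ
    refine rad_le (by positivity) hρ (hup.trans (ENNReal.ofReal_le_ofReal ?_))
    rw [← Real.rpow_natCast, ← Real.rpow_mul hr0.le]
    apply Real.rpow_le_rpow_of_exponent_ge hr0 hr1.le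
    push_cast
    have : (d / ((d : ℝ) - 1) - ε) * 2 = 2 * d / ((d : ℝ) - 1) - 2 * ε := by ring
    rw [this]
    linarith

/-- every polynomial nearby is close to the shift locus -/
theorem near_shift (hd : 2 ≤ d) {χ : ℝ} (h : Pool.Agent.Y298.CA.Lyap d χ c₀) (hc : ‖c₀‖ < 2) {ε : ℝ}
    (hε : 0 < ε) : ∀ᶠ r : ℝ in 𝓝[>] 0, ∀ b ∈ closedBall (uni d c₀) r, ∃ t : ℂ,
      ‖t‖ ≤ r ^ (d / ((d : ℝ) - 1) - ε) ∧ b + Pi.single 0 t ∈ shiftLocus d := by
  have hdR : (2 : ℝ) ≤ d := by exact_mod_cast hd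
  have hd1 : 0 < (d : ℝ) - 1 := by linarith
  obtain ⟨F, hF⟩ : ∃ F : ℝ, F = (d : ℝ) / ((d : ℝ) - 1) := ⟨_, rfl⟩
  have hF1 : 1 < F := by
    rw [hF, lt_div_iff₀ hd1]
    linarith
  have hE : 2 * (d : ℝ) / ((d : ℝ) - 1) = 2 * F := by rw [hF]; ring
  obtain ⟨σ, hσ⟩ : ∃ σ : ℝ, σ = max 1 (F - ε) := ⟨_, rfl⟩
  have hσ1 : 1 ≤ σ := by rw [hσ]; exact le_max_left _ _
  have hσF : σ < F := by
    rw [hσ]
    exact max_lt hF1 (by linarith)
  obtain ⟨e, he, H⟩ := sigma_all (E := σ + F) hd hc hσ1 (by linarith)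
    (ar_lyap hd h (by linarith) (by rw [hE]; linarith))
  have hmem0 : ∀ᶠ r : ℝ in 𝓝[>] 0, 0 < r := self_mem_nhdsWithin
  have hlt1 : ∀ᶠ r : ℝ in 𝓝[>] 0, r < 1 :=
    mem_nhdsWithin_of_mem_nhds (gt_mem_nhds (by norm_num : (0 : ℝ) < 1))
  have hlte : ∀ᶠ r : ℝ in 𝓝[>] 0, r < e := mem_nhdsWithin_of_mem_nhds (gt_mem_nhds he)
  filter_upwards [hmem0, hlt1, hlte] with r hr0 hr1 hre b hb
  rw [mem_closedBall, dist_eq_norm] at hb
  obtain ⟨t, ht1, ht2⟩ := H r hr0 hre.le b hb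
  refine ⟨t, ht1.trans ?_, ?_⟩
  · rw [← hF]
    apply Real.rpow_le_rpow_of_exponent_ge hr0 hr1.le
    rw [hσ]
    exact le_max_right _ _
  · rw [← compl_shift] at ht2
    exact not_not.1 ht2

/-- The exact exponents. -/
theorem exact_of_lyap (hd : 2 ≤ d) {χ : ℝ} (h : Pool.Agent.Y298.CA.Lyap d χ c₀) (hc : ‖c₀‖ < 2) :
    Exact d c₀ := by
  have hdR : (2 : ℝ) ≤ d := by exact_mod_cast hd
  have hd1 : 0 < (d : ℝ) - 1 := by linarith
  have hmem0 : ∀ᶠ r : ℝ in 𝓝[>] 0, 0 < r := self_mem_nhdsWithin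
  have hlt1 : ∀ᶠ r : ℝ in 𝓝[>] 0, r < 1 :=
    mem_nhdsWithin_of_mem_nhds (gt_mem_nhds (by norm_num : (0 : ℝ) < 1))
  refine ⟨fun ε hε => slices hd h hc hε, fun S hS1 hS2 => ?_, fun S hS1 hS2 => ?_, ?_⟩
  · -- the volume
    have hfin : ∀ r : ℝ, volume (S ∩ closedBall (uni d c₀) r) ≠ ⊤ := fun r =>
      ne_top_of_le_ne_top (isCompact_closedBall _ _).measure_lt_top.ne
        (measure_mono inter_subset_right)
    apply Pool.Agent.Y298.CA.lim_of
    · intro ε hε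
      filter_upwards [hmem0, low_fin_all hd h hε] with r hr0 hr
      have h1 : ENNReal.ofReal (r ^ (2 * ((d : ℝ) + 1) + 2 / ((d : ℝ) - 1) + ε)) ≤
          volume (S ∩ closedBall (uni d c₀) r) := by
        refine hr.1.trans (measure_mono (inter_subset_inter_left _ ?_))
        rw [← oneSink_eq]
        exact hS1
      exact (ENNReal.ofReal_le_iff_le_toReal (hfin r)).1 h1
    · intro ε hε
      obtain ⟨E, hE⟩ : ∃ E : ℝ, E = 2 / ((d : ℝ) - 1) := ⟨_, rfl⟩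
      have hE0 : 0 < E := by rw [hE]; positivity
      obtain ⟨E', hE'⟩ : ∃ E' : ℝ, E' = max 0 (E - ε / 2) := ⟨_, rfl⟩
      have hE'0 : 0 ≤ E' := by rw [hE']; exact le_max_left _ _
      have hE'E : 2 + E' < 2 * (d : ℝ) / ((d : ℝ) - 1) := by
        have h1 : 2 * (d : ℝ) / ((d : ℝ) - 1) = 2 + E := by
          rw [hE]
          field_simp
          ring
        rw [h1, hE']
        have := max_lt hE0 (show E - ε / 2 < E by linarith)
        linarith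
      obtain ⟨K, e, hK, he, H⟩ := vol_all Pool.Agent.Y574.GA.t hd hc
        (ar_lyap hd h (by linarith) hE'E)
      have hlte : ∀ᶠ r : ℝ in 𝓝[>] 0, r < e := mem_nhdsWithin_of_mem_nhds (gt_mem_nhds he)
      rw [← hE]
      filter_upwards [hmem0, hlt1, hlte, absorb (C := K * Real.pi ^ (d + 1))
        (E := 2 * ((d : ℝ) + 1) + E) hε] with r hr0 hr1 hre hab
      have h1 : volume (S ∩ closedBall (uni d c₀) r) ≤
          ENNReal.ofReal (K * r ^ E' * (Real.pi * r ^ 2) ^ (d + 1)) := by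
        refine (measure_mono (inter_subset_inter_left _ hS2)).trans ?_
        rw [compl_shift]
        refine (H r hr0 hre.le).trans ?_
        have h2 : volume (closedBall (ee d c₀) r) = ENNReal.ofReal ((Real.pi * r ^ 2) ^ (d + 1)) := by
          rw [volume_pi_closedBall _ hr0.le]
          have h3 : ∀ i : Fin (d + 1), volume (closedBall (ee d c₀ i) r) =
              ENNReal.ofReal (Real.pi * r ^ 2) := fun i => Pool.Agent.Y298.CA.vol_cb' _ hr0.le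
          rw [Finset.prod_congr rfl fun i _ => h3 i, Finset.prod_const, Finset.card_univ,
            Fintype.card_fin, ENNReal.ofReal_pow (by positivity)]
        rw [h2, ← ENNReal.ofReal_mul (by positivity)]
      refine (ENNReal.toReal_mono ENNReal.ofReal_ne_top h1).trans ?_
      rw [ENNReal.toReal_ofReal (by positivity)]
      refine le_trans ?_ hab
      have h4 : (r ^ 2) ^ (d + 1) = r ^ (2 * ((d : ℝ) + 1)) := by
        rw [← pow_mul, ← Real.rpow_natCast]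
        congr 1
        push_cast
        ring
      calc K * r ^ E' * (Real.pi * r ^ 2) ^ (d + 1)
          = K * Real.pi ^ (d + 1) * (r ^ E' * (r ^ 2) ^ (d + 1)) := by rw [mul_pow]; ring
        _ ≤ K * Real.pi ^ (d + 1) * r ^ (2 * ((d : ℝ) + 1) + E - ε / 2) := by
            gcongr
            rw [h4, ← Real.rpow_add hr0]
            apply Real.rpow_le_rpow_of_exponent_ge hr0 hr1.le
            have h5 : E - ε / 2 ≤ E' := by rw [hE']; exact le_max_right _ _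
            linarith
  · -- the inradius
    have hbd : ∀ ε : ℝ, 0 < ε → ∀ᶠ r : ℝ in 𝓝[>] 0, ∀ (b : Fin (d + 1) → ℂ) (ρ : ℝ),
        ball b ρ ⊆ S ∩ closedBall (uni d c₀) r → ρ ≤ r ^ (d / ((d : ℝ) - 1) - ε) := by
      intro ε hε
      filter_upwards [hmem0, near_shift hd h hc hε] with r hr0 hr b ρ hb
      rcases le_or_gt ρ 0 with h0 | h0
      · exact h0.trans (by positivity)
      obtain ⟨t, ht1, ht2⟩ := hr b (hb (mem_ball_self h0)).2
      by_contra hcon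
      rw [not_le] at hcon
      have h1 : b + Pi.single 0 t ∈ ball b ρ := by
        rw [mem_ball, dist_eq_norm, add_sub_cancel_left, Pi.norm_single]
        exact ht1.trans_lt hcon
      exact hS2 (hb h1).1 ht2
    apply Pool.Agent.Y298.CA.lim_of
    · intro ε hε
      filter_upwards [hmem0, low_fin_all hd h hε, hbd 1 one_pos] with r hr0 hr hr2
      obtain ⟨-, b, hb⟩ := hr
      refine le_csSup ⟨_, fun ρ ⟨b', hb'⟩ => hr2 b' ρ hb'⟩ ⟨b, hb.trans ?_⟩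
      apply inter_subset_inter_left
      rw [← oneSink_eq]
      exact hS1
    · intro ε hε
      filter_upwards [hmem0, hbd ε hε] with r hr0 hr
      apply csSup_le
      · exact ⟨0, 0, by simp⟩
      · rintro ρ ⟨b, hb⟩
        exact hr b ρ hb
  · -- the distance to the shift locus
    have hbd : ∀ ε : ℝ, 0 < ε → ∀ᶠ r : ℝ in 𝓝[>] 0, ∀ b ∈ closedBall (uni d c₀) r,
        infDist b (shiftLocus d) ≤ r ^ (d / ((d : ℝ) - 1) - ε) := by
      intro ε hε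
      filter_upwards [hmem0, near_shift hd h hc hε] with r hr0 hr b hb
      obtain ⟨t, ht1, ht2⟩ := hr b hb
      refine (infDist_le_dist_of_mem ht2).trans ?_
      rw [dist_comm, dist_eq_norm, add_sub_cancel_left, Pi.norm_single]
      exact ht1
    apply Pool.Agent.Y298.CA.lim_of
    · intro ε hε
      have hev6 : ∀ᶠ r : ℝ in 𝓝[>] 0, (K8 d) * r ^ (1 : ℝ) < 1 := ev_small one_pos one_pos
      filter_upwards [hmem0, low_fin_all hd h hε, hbd 1 one_pos, near_shift hd h hc one_pos,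
        hev6] with r hr0 hr hr2 hr3 e6
      rw [Real.rpow_one] at e6
      obtain ⟨-, b, hb⟩ := hr
      have hρ : 0 < r ^ ((d : ℝ) / ((d : ℝ) - 1) + ε) := Real.rpow_pos_of_pos hr0 _
      have hbb : b ∈ closedBall (uni d c₀) r := (hb (mem_ball_self hρ)).2
      have h1 : r ^ ((d : ℝ) / ((d : ℝ) - 1) + ε) ≤ infDist b (shiftLocus d) := by
        obtain ⟨t, -, ht⟩ := hr3 b hbb
        rw [le_infDist ⟨_, ht⟩]
        intro y hy
        by_contra hcon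
        rw [not_le] at hcon
        obtain ⟨h2, h3⟩ := hb (show y ∈ ball b _ by rwa [mem_ball, dist_comm])
        rw [← oneSink_eq] at h2
        obtain ⟨n, x, hn, -, -, hall⟩ := h2
        rw [mem_closedBall, dist_eq_norm] at h3
        obtain ⟨ω, hω⟩ : ∃ ω : ℂ, deriv (T d y) ω = 0 := by
          obtain ⟨κ, hκ⟩ := exists_crit hd h3 e6
          exact ⟨κ, by rw [deriv_T]; exact hκ⟩
        exact nonesc_of_tendsto hn (hall ω hω) (hy ω hω)
      exact h1.trans (le_csSup ⟨_, by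
        rintro x ⟨b', hb', rfl⟩
        exact hr2 b' hb'⟩ ⟨b, hbb, rfl⟩)
    · intro ε hε
      filter_upwards [hmem0, hbd ε hε] with r hr0 hr
      apply csSup_le
      · exact ⟨_, uni d c₀, mem_closedBall_self hr0.le, rfl⟩
      · rintro x ⟨b, hb, rfl⟩
        exact hr b hb

/-- **Sharp exponents for the density of hyperbolicity in the space of all polynomials of degree `d`
near the unicritical polynomials with a positive Lyapunov exponent**, in particular near the landing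
points of almost all external rays of the Multibrot set. -/
theorem result (d : ℕ) (hd : 2 ≤ d) :
    (∀ (χ : ℝ) (c₀ : ℂ), 0 < χ → c₀ ∈ N62a1eb23.multibrotSet d → (d = 2 → c₀ ≠ -2) →
      Tendsto (fun n : ℕ => Real.log ‖deriv ((fun z : ℂ => z ^ d + c₀)^[n]) c₀‖ / n) atTop (𝓝 χ) →
      Exact d c₀) ∧
    (∃ ψ : ℂ → ℂ, IsExteriorMap (N62a1eb23.multibrotSet d) ψ) ∧
    ∀ ψ : ℂ → ℂ, IsExteriorMap (N62a1eb23.multibrotSet d) ψ →
      ∀ᵐ θ : ℝ, ∃ c₀ ∈ frontier (N62a1eb23.multibrotSet d),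
        Tendsto (fun r : ℝ => ψ (r * Complex.exp (θ * Complex.I))) (𝓝[>] 1) (𝓝 c₀) ∧
        Tendsto (fun n : ℕ => Real.log ‖deriv ((fun z : ℂ => z ^ d + c₀)^[n]) c₀‖ / n) atTop
          (𝓝 (Real.log d)) ∧ Exact d c₀ := by
  have key : ∀ (χ : ℝ) (c₀ : ℂ), 0 < χ → c₀ ∈ N62a1eb23.multibrotSet d → (d = 2 → c₀ ≠ -2) →
      Tendsto (fun n : ℕ => Real.log ‖deriv ((fun z : ℂ => z ^ d + c₀)^[n]) c₀‖ / n) atTop (𝓝 χ) →
      Exact d c₀ := by
    intro χ c₀ hχ hc₀ hne hlim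
    have h : Pool.Agent.Y298.CA.Lyap d χ c₀ := ⟨hχ, hc₀, hlim⟩
    exact exact_of_lyap hd h (norm_lt_two hd hc₀ hne)
  refine ⟨key, ?_⟩
  obtain ⟨β, hβ⟩ := Pool.Agent.H713R2.exists_beta (d := d) hd
  refine ⟨⟨_, Pool.Agent.H713R2.exteriorMap_of_beta hβ⟩, ?_⟩
  intro ψ hψ
  filter_upwards [Pool.Agent.Y272.TY.ae_neg' (Pool.Agent.Y272.TY.typical_all hd hβ)] with θ hθ
  obtain ⟨c₀, A, R, h⟩ := hθ
  obtain ⟨h1, h2, h3⟩ := Pool.Agent.Y298.CA.lyap_of_typ hd hβ h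
  refine ⟨c₀, h.frontier hd hβ, h.tendsto_psi hβ hψ, h3, key _ c₀ h1 h2 ?_ h3⟩
  rintro rfl rfl
  have h4 := lyap_neg_two ⟨h1, h2, h3⟩
  have h5 := Real.log_injOn_pos (by norm_num : (((2 : ℕ) : ℝ)) ∈ Set.Ioi (0 : ℝ))
    (by norm_num : (4 : ℝ) ∈ Set.Ioi (0 : ℝ)) h4
  norm_num at h5

end Pool.Agent.Results.MP_28f8a1_an.SharpExponents
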